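import Pool.Agent.LibUS10.MonoDefs

/-!
MP_199925_al: a common eigenfunctional of a commuting set of endomorphisms of finite order of an
elementary abelian group which is finitely generated over them.
-/

namespace Pool.Agent.LibUS10

/-- Commuting endomorphisms of finite order of an elementary abelian `p`-group, finitely generated
over them, have a common eigenfunctional with values in the algebraic closure. -/
theorem exists_eigenfunctional (p : ℕ) [Fact p.Prime] {V : Type} [AddCommGroup V] [Nontrivial V]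
    (hp : ∀ v : V, p • v = 0) {A : Type} [Group A] (ρ : A →* AddMonoid.End V)
    (hcomm : ∀ a b : A, ρ a * ρ b = ρ b * ρ a) (hfin : ∀ a : A, ∃ n, 0 < n ∧ ρ a ^ n = 1)
    (T : Finset V)
    (hT : AddSubgroup.closure {v : V | ∃ a : A, ∃ t ∈ T, v = ρ a t} = ⊤) :
    ∃ φ : V →+ Fb p, (∃ v, φ v ≠ 0) ∧
      ∀ a : A, ∃ c : (Fb p)ˣ, ∀ v, φ (ρ a v) = c * φ v := by
  classical
  let R : Subring (AddMonoid.End V) := Subring.closure (Set.range ρ)
  have hRc : IsMulCommutative R := by
    refine Subring.isMulCommutative_closure ?_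
    rintro _ ⟨a, rfl⟩ _ ⟨b, rfl⟩
    exact hcomm a b
  letI : CommRing R := { (inferInstance : Ring R) with
    mul_comm := fun x y => hRc.is_comm.comm x y }
  have hmemR : ∀ a, ρ a ∈ R := fun a => Subring.subset_closure ⟨a, rfl⟩
  have hsmul : ∀ (r : R) (v : V), r • v = (r : AddMonoid.End V) v := fun r v => rfl
  haveI : Module.Finite R V := by
    refine ⟨⟨T, ?_⟩⟩
    rw [eq_top_iff]
    intro v _
    have hv : v ∈ AddSubgroup.closure {v : V | ∃ a : A, ∃ t ∈ T, v = ρ a t} := by
      rw [hT]; trivial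
    have hle : AddSubgroup.closure {v : V | ∃ a : A, ∃ t ∈ T, v = ρ a t} ≤
        (Submodule.span R (T : Set V)).toAddSubgroup := by
      rw [AddSubgroup.closure_le]
      rintro _ ⟨a, t, ht, rfl⟩
      have : ρ a t = (⟨ρ a, hmemR a⟩ : R) • t := rfl
      rw [this]
      exact Submodule.smul_mem _ _ (Submodule.subset_span ht)
    exact hle hv
  obtain ⟨X, hX⟩ := IsCoatomic.exists_coatom (α := Submodule R V)
  have hsimple : IsSimpleModule R (V ⧸ X) := isSimpleModule_iff_isCoatom.mpr hX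
  obtain ⟨I, hI, ⟨e⟩⟩ := isSimpleModule_iff_quot_maximal.mp hsimple
  letI : Field (R ⧸ I) := Ideal.Quotient.field I
  haveI : CharP (R ⧸ I) p := by
    rw [CharP.charP_iff_prime_eq_zero (Fact.out : p.Prime)]
    have h1 : (p : R) = 0 := by
      apply Subtype.ext
      ext v
      have h2 : ((p : R) : AddMonoid.End V) = (p : AddMonoid.End V) := by push_cast; rfl
      rw [h2]
      have h3 : (p : AddMonoid.End V) v = p • v := by
        rw [AddMonoid.End.natCast_apply]
      rw [h3, hp]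
      rfl
    have h4 : (Ideal.Quotient.mk I) (p : R) = (p : R ⧸ I) := map_natCast _ _
    rw [← h4, h1, map_zero]
  letI : Algebra (ZMod p) (R ⧸ I) := ZMod.algebra (R ⧸ I) p
  have hint : ∀ x : R ⧸ I, IsIntegral (ZMod p) x := by
    intro x
    obtain ⟨⟨r, hr⟩, rfl⟩ := Ideal.Quotient.mk_surjective x
    induction hr using Subring.closure_induction with
    | mem r hr =>
      obtain ⟨a, rfl⟩ := hr
      obtain ⟨n, hn, hn1⟩ := hfin a
      have h1 : (Ideal.Quotient.mk I) (⟨ρ a, hmemR a⟩ : R) ^ n = 1 := by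
        rw [← map_pow]
        have : (⟨ρ a, hmemR a⟩ : R) ^ n = 1 := Subtype.ext hn1
        rw [this, map_one]
      exact IsIntegral.of_pow hn (by rw [h1]; exact isIntegral_one)
    | zero =>
      have : (⟨0, Subring.zero_mem _⟩ : R) = 0 := rfl
      rw [this, map_zero]; exact isIntegral_zero
    | one =>
      have : (⟨1, Subring.one_mem _⟩ : R) = 1 := rfl
      rw [this, map_one]; exact isIntegral_one
    | add x y hx hy h1 h2 =>
      have : (⟨x + y, Subring.add_mem _ hx hy⟩ : R) = ⟨x, hx⟩ + ⟨y, hy⟩ := rfl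
      rw [this, map_add]; exact h1.add h2
    | neg x hx h1 =>
      have : (⟨-x, Subring.neg_mem _ hx⟩ : R) = -⟨x, hx⟩ := rfl
      rw [this, map_neg]; exact h1.neg
    | mul x y hx hy h1 h2 =>
      have : (⟨x * y, Subring.mul_mem _ hx hy⟩ : R) = ⟨x, hx⟩ * ⟨y, hy⟩ := rfl
      rw [this, map_mul]; exact h1.mul h2
  haveI : Algebra.IsAlgebraic (ZMod p) (R ⧸ I) := ⟨fun x => (hint x).isAlgebraic⟩
  let j : (R ⧸ I) →ₐ[ZMod p] Fb p := IsAlgClosed.lift
  let φ : V →+ Fb p := (j : (R ⧸ I) →+ Fb p).comp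
    ((e : (V ⧸ X) →+ (R ⧸ I)).comp (Submodule.mkQ X).toAddMonoidHom)
  have hφ : ∀ v, φ v = j (e (Submodule.mkQ X v)) := fun v => rfl
  refine ⟨φ, ?_, ?_⟩
  · have hne : X ≠ ⊤ := hX.1
    obtain ⟨v, hv⟩ : ∃ v, v ∉ X := by
      by_contra h
      push_neg at h
      exact hne (eq_top_iff.mpr fun v _ => h v)
    refine ⟨v, fun h => hv ?_⟩
    rw [hφ, map_eq_zero_iff j j.toRingHom.injective, EmbeddingLike.map_eq_zero_iff] at h
    rwa [Submodule.mkQ_apply, Submodule.Quotient.mk_eq_zero] at h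
  · intro a
    let r : R := ⟨ρ a, hmemR a⟩
    have hunit : j (Ideal.Quotient.mk I r) ≠ 0 := by
      intro h0
      have h1 : r * ⟨ρ a⁻¹, hmemR a⁻¹⟩ = 1 := by
        apply Subtype.ext
        change ρ a * ρ a⁻¹ = 1
        rw [← map_mul, mul_inv_cancel, map_one]
      have h2 : j (Ideal.Quotient.mk I r) * j (Ideal.Quotient.mk I ⟨ρ a⁻¹, hmemR a⁻¹⟩) = 1 := by
        rw [← map_mul, ← map_mul, h1, map_one, map_one]
      rw [h0, zero_mul] at h2
      exact zero_ne_one h2
    refine ⟨Units.mk0 _ hunit, fun v => ?_⟩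
    rw [hφ, hφ]
    have h1 : ρ a v = r • v := rfl
    have h2 : r • e (Submodule.mkQ X v) = Ideal.Quotient.mk I r * e (Submodule.mkQ X v) := by
      rw [Algebra.smul_def]; rfl
    rw [h1, map_smul, map_smul, h2, map_mul]
    rfl

end Pool.Agent.LibUS10
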