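import Pool.Agent.LibUS10.LocNil

/-!
MP_199925_al: minimal normal subgroups of periodic locally soluble groups are elementary abelian.
-/

namespace Pool.Agent.LibUS10

open scoped commutatorElement

/-- The subgroup generated by the conjugates of `x` by the elements of `F`. -/
def mcl {H : Type} [Group H] (F : Subgroup H) (x : H) : Subgroup H :=
  Subgroup.closure {y | ∃ f ∈ F, f * x * f⁻¹ = y}

theorem mcl_mono {H : Type} [Group H] {F F' : Subgroup H} (h : F ≤ F') (x : H) :
    mcl F x ≤ mcl F' x := by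
  refine Subgroup.closure_mono ?_
  rintro y ⟨f, hf, rfl⟩
  exact ⟨f, h hf, rfl⟩

theorem mcl_conj {H : Type} [Group H] {F : Subgroup H} {x : H} {g : H}
    (hg : g ∈ F) {y : H} (hy : y ∈ mcl F x) : g * y * g⁻¹ ∈ mcl F x := by
  unfold mcl at hy ⊢
  induction hy using Subgroup.closure_induction with
  | mem y hy =>
    obtain ⟨f, hf, rfl⟩ := hy
    refine Subgroup.subset_closure ⟨g * f, mul_mem hg hf, ?_⟩
    group
  | one => simp
  | mul a b _ _ ha hb =>
    have : g * (a * b) * g⁻¹ = (g * a * g⁻¹) * (g * b * g⁻¹) := by group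
    rw [this]
    exact mul_mem ha hb
  | inv a _ ha =>
    have : g * a⁻¹ * g⁻¹ = (g * a * g⁻¹)⁻¹ := by group
    rw [this]
    exact inv_mem ha

theorem mcl_fin {H : Type} [Group H] {x y : H} (hy : y ∈ mcl ⊤ x) :
    ∃ S : Finset H, y ∈ mcl (Subgroup.closure (S : Set H)) x := by
  classical
  unfold mcl at hy
  induction hy using Subgroup.closure_induction with
  | mem y hy =>
    obtain ⟨f, _, rfl⟩ := hy
    refine ⟨{f}, Subgroup.subset_closure ⟨f, Subgroup.subset_closure ?_, rfl⟩⟩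
    simp
  | one => exact ⟨∅, one_mem _⟩
  | mul a b _ _ ha hb =>
    obtain ⟨S, hS⟩ := ha
    obtain ⟨S', hS'⟩ := hb
    refine ⟨S ∪ S', mul_mem (mcl_mono (Subgroup.closure_mono ?_) x hS)
      (mcl_mono (Subgroup.closure_mono ?_) x hS')⟩
    · simp
    · simp
  | inv a _ ha =>
    obtain ⟨S, hS⟩ := ha
    exact ⟨S, inv_mem hS⟩

theorem mcl_comm_fin {H : Type} [Group H] {x y : H}
    (hy : y ∈ ⁅mcl ⊤ x, mcl ⊤ x⁆) :
    ∃ S : Finset H, y ∈ ⁅mcl (Subgroup.closure (S : Set H)) x,
      mcl (Subgroup.closure (S : Set H)) x⁆ := by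
  classical
  have hmono : ∀ S S' : Finset H, S ⊆ S' → mcl (Subgroup.closure (S : Set H)) x ≤
      mcl (Subgroup.closure (S' : Set H)) x := by
    intro S S' h
    exact mcl_mono (Subgroup.closure_mono (by exact_mod_cast h)) x
  rw [Subgroup.commutator_def] at hy
  induction hy using Subgroup.closure_induction with
  | mem y hy =>
    obtain ⟨r, hr, m, hm, rfl⟩ := hy
    obtain ⟨S, hS⟩ := mcl_fin hr
    obtain ⟨S', hS'⟩ := mcl_fin hm
    exact ⟨S ∪ S', Subgroup.commutator_mem_commutator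
      (hmono _ _ Finset.subset_union_left hS) (hmono _ _ Finset.subset_union_right hS')⟩
  | one => exact ⟨∅, one_mem _⟩
  | mul a b _ _ ha hb =>
    obtain ⟨S, hS⟩ := ha
    obtain ⟨S', hS'⟩ := hb
    exact ⟨S ∪ S', mul_mem
      (Subgroup.commutator_mono (hmono _ _ Finset.subset_union_left)
        (hmono _ _ Finset.subset_union_left) hS)
      (Subgroup.commutator_mono (hmono _ _ Finset.subset_union_right)
        (hmono _ _ Finset.subset_union_right) hS')⟩
  | inv a _ ha =>
    obtain ⟨S, hS⟩ := ha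
    exact ⟨S, inv_mem hS⟩

/-- Minimal normal subgroups of locally soluble groups are abelian. -/
theorem min_normal_comm {G : Type} [Group G] (hs : LocSolvable G) {K : Subgroup G}
    (hKn : K.Normal) (hmin : ∀ L : Subgroup G, L.Normal → L ≤ K → L = ⊥ ∨ L = K) :
    ∀ x ∈ K, ∀ y ∈ K, x * y = y * x := by
  classical
  rcases hmin ⁅K, K⁆ inferInstance (Subgroup.commutator_le_left K K) with h | h
  · intro x hx y hy
    have h1 : ⁅x, y⁆ ∈ ⁅K, K⁆ := Subgroup.commutator_mem_commutator hx hy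
    rw [h, Subgroup.mem_bot, commutatorElement_eq_one_iff_mul_comm] at h1
    exact h1
  by_cases hK : K = ⊥
  · intro x hx y hy
    rw [hK, Subgroup.mem_bot] at hx hy
    rw [hx, hy]
  exfalso
  obtain ⟨⟨x, hxK⟩, hx0⟩ := Subgroup.ne_bot_iff_exists_ne_one.mp hK
  have hx1 : x ≠ 1 := fun h' => hx0 (Subtype.ext h')
  have hxcl : ∀ F : Subgroup G, x ∈ mcl F x := fun F =>
    Subgroup.subset_closure ⟨1, one_mem _, by simp⟩
  have hcln : (mcl ⊤ x).Normal := ⟨fun y hy g => mcl_conj (Subgroup.mem_top g) hy⟩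
  have hclK : mcl ⊤ x ≤ K := by
    unfold mcl
    rw [Subgroup.closure_le]
    rintro y ⟨f, _, rfl⟩
    exact hKn.conj_mem x hxK f
  have hcl : mcl ⊤ x = K := by
    rcases hmin _ hcln hclK with h' | h'
    · exfalso
      have := hxcl ⊤
      rw [h', Subgroup.mem_bot] at this
      exact hx1 this
    · exact h'
  have hx2 : x ∈ ⁅mcl ⊤ x, mcl ⊤ x⁆ := by
    rw [hcl, h]; exact hxK
  obtain ⟨S, hS⟩ := mcl_comm_fin hx2
  let F := Subgroup.closure ((insert x S : Finset G) : Set G)
  have hSF : Subgroup.closure (S : Set G) ≤ F := Subgroup.closure_mono (by simp)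
  have hxF : x ∈ F := Subgroup.subset_closure (by simp)
  have hFs : Group.IsSolvable F := hs (insert x S)
  let L := mcl F x
  have hxL : x ∈ ⁅L, L⁆ := Subgroup.commutator_mono (mcl_mono hSF x) (mcl_mono hSF x) hS
  have hLF : L ≤ F := by
    change mcl F x ≤ F
    unfold mcl
    rw [Subgroup.closure_le]
    rintro y ⟨f, hf, rfl⟩
    exact mul_mem (mul_mem hf hxF) (inv_mem hf)
  have hLLconj : ∀ f ∈ F, ∀ z ∈ ⁅L, L⁆, f * z * f⁻¹ ∈ ⁅L, L⁆ := by
    intro f hf z hz
    rw [Subgroup.commutator_def] at hz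
    induction hz using Subgroup.closure_induction with
    | mem z hz =>
      obtain ⟨d, hd, l, hl, rfl⟩ := hz
      have h1 : f * ⁅d, l⁆ * f⁻¹ = ⁅f * d * f⁻¹, f * l * f⁻¹⁆ := by
        simp only [commutatorElement_def]
        group
      rw [h1]
      exact Subgroup.commutator_mem_commutator (mcl_conj hf hd) (mcl_conj hf hl)
    | one => simp
    | mul a b _ _ ha hb =>
      have : f * (a * b) * f⁻¹ = (f * a * f⁻¹) * (f * b * f⁻¹) := by group
      rw [this]
      exact mul_mem ha hb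
    | inv a _ ha =>
      have : f * a⁻¹ * f⁻¹ = (f * a * f⁻¹)⁻¹ := by group
      rw [this]
      exact inv_mem ha
  have hLle : L ≤ ⁅L, L⁆ := by
    change mcl F x ≤ _
    rw [mcl, Subgroup.closure_le]
    rintro z ⟨f, hf, rfl⟩
    exact hLLconj f hf x hxL
  -- transfer to the soluble group `F`
  have hne : L.subgroupOf F ≠ ⊥ := by
    intro h0
    have h1 : (⟨x, hxF⟩ : F) ∈ L.subgroupOf F := by
      rw [Subgroup.mem_subgroupOf]; exact hxcl F
    rw [h0, Subgroup.mem_bot] at h1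
    exact hx1 (congrArg Subtype.val h1)
  have hlt := Group.IsSolvable.commutator_lt_of_ne_bot (G := F) hne
  have hmap : (⁅L.subgroupOf F, L.subgroupOf F⁆).map F.subtype = ⁅L, L⁆ := by
    rw [Subgroup.map_commutator, Subgroup.subgroupOf_map_subtype, inf_eq_left.mpr hLF]
  apply hlt.not_ge
  intro z hz
  have h1 : (z : G) ∈ (⁅L.subgroupOf F, L.subgroupOf F⁆).map F.subtype := by
    rw [hmap]
    exact hLle (Subgroup.mem_subgroupOf.mp hz)
  obtain ⟨w, hw, hwz⟩ := h1
  have : w = z := Subtype.ext hwz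
  rwa [← this]

/-- A minimal normal subgroup of a periodic locally soluble group has prime exponent. -/
theorem min_normal_exponent {G : Type} [Group G] (ht : ∀ g : G, IsOfFinOrder g)
    {K : Subgroup G} (hKn : K.Normal)
    (hmin : ∀ L : Subgroup G, L.Normal → L ≤ K → L = ⊥ ∨ L = K) (hK : K ≠ ⊥)
    (hcomm : ∀ x ∈ K, ∀ y ∈ K, x * y = y * x) :
    ∃ p : ℕ, p.Prime ∧ ∀ x ∈ K, x ^ p = 1 := by
  obtain ⟨⟨x, hxK⟩, hx0⟩ := Subgroup.ne_bot_iff_exists_ne_one.mp hK
  have hx1 : x ≠ 1 := fun h' => hx0 (Subtype.ext h')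
  have hord : orderOf x ≠ 1 := fun h => hx1 (orderOf_eq_one_iff.mp h)
  obtain ⟨p, hp, hpd⟩ := Nat.exists_prime_and_dvd hord
  refine ⟨p, hp, ?_⟩
  let L : Subgroup G :=
    { carrier := {y | y ∈ K ∧ y ^ p = 1}
      mul_mem' := by
        rintro a b ⟨ha, ha'⟩ ⟨hb, hb'⟩
        refine ⟨mul_mem ha hb, ?_⟩
        rw [(show Commute a b from hcomm a ha b hb).mul_pow, ha', hb', mul_one]
      one_mem' := ⟨one_mem _, one_pow _⟩
      inv_mem' := by
        rintro a ⟨ha, ha'⟩
        exact ⟨inv_mem ha, by rw [inv_pow, ha', inv_one]⟩ }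
  have hLn : L.Normal := by
    refine ⟨?_⟩
    rintro y ⟨hy, hy'⟩ g
    refine ⟨hKn.conj_mem y hy g, ?_⟩
    rw [conj_pow, hy', mul_one, mul_inv_cancel]
  have hLK : L ≤ K := fun y hy => hy.1
  rcases hmin L hLn hLK with h | h
  · exfalso
    obtain ⟨m, hm⟩ := hpd
    have hpos : 0 < orderOf x := (ht x).orderOf_pos
    have hmpos : 0 < m := by
      rcases Nat.eq_zero_or_pos m with h0 | h0
      · rw [h0, mul_zero] at hm; omega
      · exact h0
    have hy : x ^ m ∈ L := by
      refine ⟨K.pow_mem hxK m, ?_⟩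
      rw [← pow_mul, mul_comm, ← hm, pow_orderOf_eq_one]
    rw [h, Subgroup.mem_bot] at hy
    have h1 := Nat.le_of_dvd hmpos (orderOf_dvd_of_pow_eq_one hy)
    rw [hm] at h1
    have h2 := hp.two_le
    nlinarith
  · intro y hy
    rw [← h] at hy
    exact hy.2

end Pool.Agent.LibUS10
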