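import Pool.Agent.LibUS10.AbE
import Pool.Agent.LibUS10.AbM

/-!
MP_199925_al: a chief factor with abelian-by-finite automizer of a periodic locally
soluble group embeds in a monomial type.
-/

namespace Pool.Agent.LibUS10

open Equiv
open scoped commutatorElement

/-- The conjugation action on a normal subgroup, additively. -/
def conjEnd {G : Type} [Group G] (K : Subgroup G) [K.Normal] : G →* Monoid.End K where
  toFun g :=
    { toFun := fun x => ⟨g * x * g⁻¹, Subgroup.Normal.conj_mem inferInstance _ x.2 g⟩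
      map_one' := Subtype.ext (by simp)
      map_mul' := fun x y => Subtype.ext (by
        change g * ((x : G) * y) * g⁻¹ = (g * x * g⁻¹) * (g * y * g⁻¹)
        group) }
  map_one' := by
    apply MonoidHom.ext
    intro x
    apply Subtype.ext
    change 1 * (x : G) * 1⁻¹ = x
    group
  map_mul' g h := by
    apply MonoidHom.ext
    intro x
    apply Subtype.ext
    change (g * h) * (x : G) * (g * h)⁻¹ = g * (h * x * h⁻¹) * g⁻¹
    group

theorem conjEnd_apply {G : Type} [Group G] (K : Subgroup G) [K.Normal] (g : G) (x : K) :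
    ((conjEnd K g x : K) : G) = g * x * g⁻¹ := rfl

/-- The functional on a minimal normal subgroup. -/
theorem exists_functional {G : Type} [Group G] (ht : ∀ g : G, IsOfFinOrder g)
    (hs : LocSolvable G) {K : Subgroup G} (hKn : K.Normal) (hK : K ≠ ⊥)
    (hmin : ∀ L : Subgroup G, L.Normal → L ≤ K → L = ⊥ ∨ L = K)
    (A : Subgroup G) [A.FiniteIndex] (hA : ⁅⁅A, A⁆, K⁆ = ⊥) :
    ∃ (p : ℕ) (_ : Fact p.Prime) (Φ : G → Fb p),
      (∀ x ∈ K, ∀ y ∈ K, Φ (x * y) = Φ x + Φ y) ∧
      (∀ a ∈ A, ∃ c : (Fb p)ˣ, ∀ x ∈ K, Φ (a * x * a⁻¹) = c * Φ x) ∧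
      ∃ x ∈ K, Φ x ≠ 0 := by
  classical
  have hcomm := min_normal_comm hs hKn hmin
  obtain ⟨p, hp, hexp⟩ := min_normal_exponent ht hKn hmin hK hcomm
  haveI : Fact p.Prime := ⟨hp⟩
  letI : CommGroup K := { (inferInstance : Group K) with
    mul_comm := fun x y => Subtype.ext (hcomm x x.2 y y.2) }
  obtain ⟨v₀, hv₀⟩ := Subgroup.ne_bot_iff_exists_ne_one.mp hK
  haveI : Nontrivial (Additive K) := ⟨⟨Additive.ofMul v₀, 0, fun h => hv₀ h⟩⟩
  let ρ : G →* AddMonoid.End (Additive K) :=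
    { toFun := fun g => MonoidHom.toAdditive (conjEnd K g)
      map_one' := by
        rw [map_one]
        rfl
      map_mul' := fun g h => by
        rw [map_mul]
        rfl }
  have hρ : ∀ (g : G) (v : Additive K),
      ((Additive.toMul (ρ g v) : K) : G) = g * (Additive.toMul v : K) * g⁻¹ :=
    fun g v => conjEnd_apply K g _
  have hcom : ∀ a b : A, ρ a * ρ b = ρ b * ρ a := by
    intro a b
    have h1 : ρ ⁅(a : G), (b : G)⁆ = 1 := by
      apply AddMonoidHom.ext
      intro v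
      apply Subtype.ext
      change ((Additive.toMul (ρ ⁅(a : G), (b : G)⁆ v) : K) : G) = (Additive.toMul v : K)
      rw [hρ]
      have h2 : ⁅⁅(a : G), (b : G)⁆, ((Additive.toMul v : K) : G)⁆ ∈ ⁅⁅A, A⁆, K⁆ :=
        Subgroup.commutator_mem_commutator
          (Subgroup.commutator_mem_commutator a.2 b.2) (Additive.toMul v : K).2
      rw [hA, Subgroup.mem_bot, commutatorElement_def] at h2
      exact mul_inv_eq_one.mp h2
    have h3 : (a : G) * b = ⁅(a : G), (b : G)⁆ * (b * a) := by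
      rw [commutatorElement_def]; group
    rw [← map_mul, ← map_mul, h3, map_mul, h1, one_mul]
  have hfin : ∀ a : A, ∃ n, 0 < n ∧ (ρ.comp A.subtype) a ^ n = 1 := by
    intro a
    obtain ⟨n, hn, hn1⟩ := isOfFinOrder_iff_pow_eq_one.mp (ht a)
    refine ⟨n, hn, ?_⟩
    rw [← map_pow]
    have : a ^ n = 1 := Subtype.ext (by rw [SubmonoidClass.coe_pow, hn1]; rfl)
    rw [this, map_one]
  haveI : Finite (G ⧸ A) := Subgroup.finite_quotient_of_finiteIndex
  haveI : Fintype (G ⧸ A) := Fintype.ofFinite _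
  let T : Finset (Additive K) := Finset.univ.image (fun q : G ⧸ A =>
    ρ (Quotient.out q)⁻¹ (Additive.ofMul v₀))
  have hmemS : ∀ g : G, ∃ a : A, ∃ t ∈ T, ρ g (Additive.ofMul v₀) = (ρ.comp A.subtype) a t := by
    intro g
    let q : G ⧸ A := QuotientGroup.mk g⁻¹
    have h1 : (QuotientGroup.mk (Quotient.out q) : G ⧸ A) = QuotientGroup.mk g⁻¹ :=
      QuotientGroup.out_eq' q
    have h2 : (Quotient.out q)⁻¹ * g⁻¹ ∈ A := QuotientGroup.eq.mp h1
    refine ⟨⟨((Quotient.out q)⁻¹ * g⁻¹)⁻¹, inv_mem h2⟩,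
      ρ (Quotient.out q)⁻¹ (Additive.ofMul v₀), Finset.mem_image_of_mem _ (Finset.mem_univ q), ?_⟩
    have h3 : (ρ.comp A.subtype) ⟨((Quotient.out q)⁻¹ * g⁻¹)⁻¹, inv_mem h2⟩
        (ρ (Quotient.out q)⁻¹ (Additive.ofMul v₀))
        = (ρ (((Quotient.out q)⁻¹ * g⁻¹)⁻¹) * ρ (Quotient.out q)⁻¹) (Additive.ofMul v₀) := rfl
    rw [h3, ← map_mul]
    congr 2
    group
  have hT : AddSubgroup.closure {v : Additive K | ∃ a : A, ∃ t ∈ T,
      v = (ρ.comp A.subtype) a t} = ⊤ := by
    have hcln : (mcl ⊤ (v₀ : G)).Normal := ⟨fun y hy g => mcl_conj (Subgroup.mem_top g) hy⟩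
    have hclK : mcl ⊤ (v₀ : G) ≤ K := by
      unfold mcl
      rw [Subgroup.closure_le]
      rintro y ⟨f, _, rfl⟩
      exact hKn.conj_mem _ v₀.2 f
    have hcl : mcl ⊤ (v₀ : G) = K := by
      rcases hmin _ hcln hclK with h' | h'
      · exfalso
        have h1 : (v₀ : G) ∈ mcl ⊤ (v₀ : G) :=
          Subgroup.subset_closure ⟨1, Subgroup.mem_top _, by simp⟩
        rw [h', Subgroup.mem_bot] at h1
        exact hv₀ (Subtype.ext h1)
      · exact h'
    rw [eq_top_iff]
    intro v _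
    have key : ∀ y : G, y ∈ mcl ⊤ (v₀ : G) → ∃ hy : y ∈ K, (Additive.ofMul (⟨y, hy⟩ : K)) ∈
        AddSubgroup.closure {v : Additive K | ∃ a : A, ∃ t ∈ T,
          v = (ρ.comp A.subtype) a t} := by
      intro y hy
      unfold mcl at hy
      induction hy using Subgroup.closure_induction with
      | mem y hy =>
        obtain ⟨f, _, rfl⟩ := hy
        refine ⟨hKn.conj_mem _ v₀.2 f, AddSubgroup.subset_closure ?_⟩
        obtain ⟨a, t, ht', h1⟩ := hmemS f
        refine ⟨a, t, ht', ?_⟩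
        rw [← h1]
        exact Subtype.ext (hρ f (Additive.ofMul v₀)).symm
      | one => exact ⟨one_mem _, AddSubgroup.zero_mem _⟩
      | mul a b _ _ ha hb =>
        obtain ⟨ha1, ha2⟩ := ha
        obtain ⟨hb1, hb2⟩ := hb
        exact ⟨mul_mem ha1 hb1, AddSubgroup.add_mem _ ha2 hb2⟩
      | inv a _ ha =>
        obtain ⟨ha1, ha2⟩ := ha
        exact ⟨inv_mem ha1, AddSubgroup.neg_mem _ ha2⟩
    obtain ⟨h1, h2⟩ := key (Additive.toMul v : K) (by rw [hcl]; exact (Additive.toMul v : K).2)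
    exact h2
  obtain ⟨φ, ⟨w, hw⟩, hφ⟩ := exists_eigenfunctional p (V := Additive K)
    (fun v => Subtype.ext (hexp _ (Additive.toMul v : K).2)) (ρ.comp A.subtype) hcom hfin T hT
  let Φ : G → Fb p := fun x => if h : x ∈ K then φ (Additive.ofMul (⟨x, h⟩ : K)) else 0
  have hΦ : ∀ x (h : x ∈ K), Φ x = φ (Additive.ofMul (⟨x, h⟩ : K)) := fun x h => dif_pos h
  refine ⟨p, ⟨hp⟩, Φ, ?_, ?_, ?_⟩
  · intro x hx y hy
    rw [hΦ x hx, hΦ y hy, hΦ _ (mul_mem hx hy), ← map_add]
    rfl
  · intro a ha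
    obtain ⟨c, hc⟩ := hφ ⟨a, ha⟩
    refine ⟨c, fun x hx => ?_⟩
    rw [hΦ x hx, hΦ _ (hKn.conj_mem x hx a), ← hc]
    congr 1
  · refine ⟨(Additive.toMul w : K), (Additive.toMul w : K).2, ?_⟩
    rw [hΦ _ (Additive.toMul w : K).2]
    exact hw

/-- The monomial map with given permutation and coefficients. -/
noncomputable def monoMk (p : ℕ) [Fact p.Prime] (k : ℕ) (q : Perm (Fin k))
    (l : Fin k → (Fb p)ˣ) : (Fin k → Fb p) ≃+ (Fin k → Fb p) where
  toFun x i := l i * x (q⁻¹ i)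
  invFun x i := ((l (q i))⁻¹ : (Fb p)ˣ) * x (q i)
  left_inv x := by
    funext i
    change ((l (q i))⁻¹ : (Fb p)ˣ) * ((l (q i) : (Fb p)ˣ) * x (q⁻¹ (q i))) = x i
    rw [Units.inv_mul_cancel_left]
    change x (q.symm (q i)) = x i
    rw [Equiv.symm_apply_apply]
  right_inv x := by
    funext i
    change (l i : Fb p) * (((l (q (q⁻¹ i)))⁻¹ : (Fb p)ˣ) * x (q (q⁻¹ i))) = x i
    have h1 : q (q⁻¹ i) = i := Equiv.apply_symm_apply q i
    rw [h1, Units.mul_inv_cancel_left]
  map_add' x y := by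
    funext i
    change (l i : Fb p) * (x (q⁻¹ i) + y (q⁻¹ i)) = _
    rw [mul_add]
    rfl

/-- The image of a locally soluble group in a finite group is soluble. -/
theorem range_solvable {G X : Type} [Group G] [Group X] [Finite X] (hs : LocSolvable G)
    (f : G →* X) : Group.IsSolvable f.range := by
  classical
  haveI : Fintype f.range := Fintype.ofFinite _
  choose r hr using fun x : f.range => x.2
  let S : Finset G := Finset.univ.image r
  have hsol := hs S
  let g : Subgroup.closure (S : Set G) →* f.range :=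
    f.rangeRestrict.comp (Subgroup.closure (S : Set G)).subtype
  have hg : Function.Surjective g := by
    intro x
    refine ⟨⟨r x, Subgroup.subset_closure ?_⟩, Subtype.ext (hr x)⟩
    exact Finset.mem_coe.mpr (Finset.mem_image_of_mem r (Finset.mem_univ x))
  exact Group.isSolvable_of_surjective hg

/-- The monomial embedding of a minimal normal subgroup. -/
theorem abf_min {G : Type} [Group G] (ht : ∀ g : G, IsOfFinOrder g)
    (hs : LocSolvable G) {K : Subgroup G} (hKn : K.Normal) (hK : K ≠ ⊥)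
    (hmin : ∀ L : Subgroup G, L.Normal → L ≤ K → L = ⊥ ∨ L = K)
    (A : Subgroup G) [A.FiniteIndex] (hA : ⁅⁅A, A⁆, K⁆ = ⊥) :
    ∃ (p : ℕ) (_ : Fact p.Prime) (k : ℕ) (Q : Subgroup (Perm (Fin k)))
      (_ : Group.IsSolvable Q) (ι : G → (Fin k → Fb p)),
      (∀ x ∈ K, ∀ y ∈ K, ι (x * y) = ι x + ι y) ∧ (∀ x ∈ K, ι x = 0 ↔ x = 1) ∧
      ∀ g, ∃ s ∈ MonoSet p k Q, ∀ x ∈ K, ι (g * x * g⁻¹) = s (ι x) := by
  classical
  obtain ⟨p, hp, Φ, h1, h2, x₀, hx₀, h3⟩ := exists_functional ht hs hKn hK hmin A hA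
  haveI : Finite (G ⧸ A) := Subgroup.finite_quotient_of_finiteIndex
  obtain ⟨k, ⟨e⟩⟩ := Finite.exists_equiv_fin (G ⧸ A)
  let f : G →* Perm (Fin k) :=
    (e.permCongrHom.toMonoidHom).comp (MulAction.toPermHom G (G ⧸ A))
  have hf : ∀ g j, f g j = e (g • e.symm j) := fun g j => rfl
  let ι : G → (Fin k → Fb p) := fun x j =>
    Φ ((Quotient.out (e.symm j))⁻¹ * x * Quotient.out (e.symm j))
  have hconj : ∀ x ∈ K, ∀ g : G, g⁻¹ * x * g ∈ K := fun x hx g => by
    simpa using hKn.conj_mem x hx g⁻¹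
  have hadd : ∀ x ∈ K, ∀ y ∈ K, ι (x * y) = ι x + ι y := by
    intro x hx y hy
    funext j
    change Φ _ = Φ _ + Φ _
    rw [← h1 _ (hconj x hx _) _ (hconj y hy _)]
    congr 1
    group
  have hequiv : ∀ g, ∃ s ∈ MonoSet p k f.range, ∀ x ∈ K, ι (g * x * g⁻¹) = s (ι x) := by
    intro g
    have hex : ∀ j : Fin k, ∃ c : (Fb p)ˣ, ∀ x ∈ K,
        ι (g * x * g⁻¹) j = c * ι x ((f g)⁻¹ j) := by
      intro j
      let i : G ⧸ A := e.symm j
      let i' : G ⧸ A := g⁻¹ • i
      have hj : (f g)⁻¹ j = e i' := by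
        rw [← map_inv, hf]
      have ha : (Quotient.out i')⁻¹ * (g⁻¹ * Quotient.out i) ∈ A := by
        apply QuotientGroup.eq.mp
        rw [QuotientGroup.out_eq']
        change g⁻¹ • i = _
        conv_lhs => rw [← QuotientGroup.out_eq' i]
        rfl
      obtain ⟨c, hc⟩ := h2 _ (inv_mem ha)
      refine ⟨c, fun x hx => ?_⟩
      rw [hj]
      change Φ ((Quotient.out i)⁻¹ * (g * x * g⁻¹) * Quotient.out i)
        = c * Φ ((Quotient.out (e.symm (e i')))⁻¹ * x * Quotient.out (e.symm (e i')))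
      rw [Equiv.symm_apply_apply, ← hc _ (hconj x hx _)]
      congr 1
      group
    choose c hc using hex
    refine ⟨monoMk p k (f g) c, ⟨f g, ⟨g, rfl⟩, c, fun x i => rfl⟩, fun x hx => ?_⟩
    funext j
    exact hc j x hx
  have hker : ∀ x ∈ K, ι x = 0 ↔ x = 1 := by
    have hone : ι 1 = 0 := by
      have := hadd 1 (one_mem _) 1 (one_mem _)
      rw [mul_one] at this
      simpa using this
    let L : Subgroup G :=
      { carrier := {x | x ∈ K ∧ ι x = 0}
        mul_mem' := by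
          rintro a b ⟨ha, ha'⟩ ⟨hb, hb'⟩
          exact ⟨mul_mem ha hb, by rw [hadd a ha b hb, ha', hb', add_zero]⟩
        one_mem' := ⟨one_mem _, hone⟩
        inv_mem' := by
          rintro a ⟨ha, ha'⟩
          refine ⟨inv_mem ha, ?_⟩
          have := hadd a ha a⁻¹ (inv_mem ha)
          rw [mul_inv_cancel, hone, ha', zero_add] at this
          exact this.symm }
    have hLn : L.Normal := by
      refine ⟨?_⟩
      rintro y ⟨hy, hy'⟩ g
      refine ⟨hKn.conj_mem y hy g, ?_⟩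
      obtain ⟨s, -, hs'⟩ := hequiv g
      rw [hs' y hy, hy', map_zero]
    rcases hmin L hLn (fun y hy => hy.1) with h | h
    · intro x hx
      constructor
      · intro h0
        have : x ∈ L := ⟨hx, h0⟩
        rwa [h, Subgroup.mem_bot] at this
      · rintro rfl
        exact hone
    · exfalso
      have hx1 : x₀ ∈ L := by rw [h]; exact hx₀
      have hx2 := congrFun hx1.2 (e (QuotientGroup.mk (1 : G)))
      change Φ ((Quotient.out (e.symm (e (QuotientGroup.mk (1 : G)))))⁻¹ * x₀ *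
        Quotient.out (e.symm (e (QuotientGroup.mk (1 : G))))) = 0 at hx2
      rw [Equiv.symm_apply_apply] at hx2
      have ha : Quotient.out (QuotientGroup.mk (1 : G) : G ⧸ A) ∈ A := by
        have h4 : (QuotientGroup.mk (1 : G) : G ⧸ A)
            = QuotientGroup.mk (Quotient.out (QuotientGroup.mk (1 : G) : G ⧸ A)) :=
          (QuotientGroup.out_eq' _).symm
        have h5 := QuotientGroup.eq.mp h4
        simpa using h5
      obtain ⟨c, hc⟩ := h2 _ (inv_mem ha)
      have h6 := hc x₀ hx₀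
      rw [inv_inv, hx2] at h6
      rcases mul_eq_zero.mp h6.symm with h7 | h7
      · exact c.ne_zero h7
      · exact h3 h7
  exact ⟨p, hp, k, f.range, range_solvable hs f, ι, hadd, hker, hequiv⟩

theorem abf_chief {H : Type} [Group H] (ht : ∀ h : H, IsOfFinOrder h) (hs : LocSolvable H)
    {M N : Subgroup H} (hc : IsChief M N) (A : Subgroup H) [A.FiniteIndex]
    (hA : ⁅⁅A, A⁆, M⁆ ≤ N) :
    ∃ (p : ℕ) (_ : Fact p.Prime) (k : ℕ) (Q : Subgroup (Perm (Fin k)))
      (_ : Group.IsSolvable Q) (ι : H → (Fin k → Fb p)),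
      (∀ x ∈ M, ∀ y ∈ M, ι (x * y) = ι x + ι y) ∧ (∀ x ∈ M, ι x = 0 ↔ x ∈ N) ∧
      ∀ g, ∃ s ∈ MonoSet p k Q, ∀ x ∈ M, ι (g * x * g⁻¹) = s (ι x) := by
  classical
  have hMn := hc.normal_top
  have hNn := hc.normal_bot
  let π := QuotientGroup.mk' N
  have hπ : Function.Surjective π := QuotientGroup.mk'_surjective N
  have hkerπ : π.ker = N := QuotientGroup.ker_mk' N
  -- the quotient is periodic and locally soluble
  have ht' : ∀ g : H ⧸ N, IsOfFinOrder g := by
    intro g
    obtain ⟨g, rfl⟩ := hπ g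
    exact π.isOfFinOrder (ht g)
  have hs' : LocSolvable (H ⧸ N) := by
    intro S
    choose r hr using hπ
    have h1 := hs (S.image r)
    have h2 : (Subgroup.closure ((S.image r : Finset H) : Set H)).map π =
        Subgroup.closure (S : Set (H ⧸ N)) := by
      rw [MonoidHom.map_closure]
      congr 1
      ext y
      simp only [Set.mem_image, Finset.mem_coe, Finset.mem_image]
      constructor
      · rintro ⟨_, ⟨x, hx, rfl⟩, rfl⟩
        rw [hr]; exact hx
      · intro hy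
        exact ⟨r y, ⟨y, hy, rfl⟩, hr y⟩
    rw [← h2]
    exact Group.isSolvable_of_surjective
      (π.subgroupMap_surjective (Subgroup.closure ((S.image r : Finset H) : Set H)))
  let K := M.map π
  have hKn : K.Normal := hMn.map π hπ
  have hK : K ≠ ⊥ := by
    intro h
    have h1 : M ≤ N := ((Subgroup.map_eq_bot_iff M).mp h).trans hkerπ.le
    exact absurd h1 (not_le_of_gt hc.lt)
  have hmin : ∀ L : Subgroup (H ⧸ N), L.Normal → L ≤ K → L = ⊥ ∨ L = K := by
    intro L hL hLK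
    have h1 : N ≤ L.comap π := hkerπ.symm.le.trans (Subgroup.ker_le_comap π L)
    have h2 : L.comap π ≤ M := by
      intro x hx
      obtain ⟨m, hm, hmx⟩ := hLK hx
      have h3 : m⁻¹ * x ∈ N := by
        apply hkerπ.le
        rw [MonoidHom.mem_ker, map_mul, map_inv, hmx, inv_mul_cancel]
      have h4 := mul_mem hm (hc.lt.le h3)
      simpa using h4
    have hL' : (L.comap π).map π = L := Subgroup.map_comap_eq_self_of_surjective hπ L
    rcases hc.min (L.comap π) (hL.comap π) h1 h2 with h | h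
    · left
      rw [← hL', h]
      exact (Subgroup.map_eq_bot_iff N).mpr hkerπ.symm.le
    · right
      rw [← hL', h]
  let A' := A.map π
  haveI : A'.FiniteIndex := by
    refine ⟨fun h0 => ?_⟩
    have h1 : A'.index ∣ A.index := Subgroup.index_map_dvd A hπ
    rw [h0] at h1
    exact Subgroup.FiniteIndex.index_ne_zero (Nat.eq_zero_of_zero_dvd h1)
  have hA' : ⁅⁅A', A'⁆, K⁆ = ⊥ := by
    rw [← Subgroup.map_commutator, ← Subgroup.map_commutator, Subgroup.map_eq_bot_iff]
    exact hA.trans hkerπ.symm.le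
  obtain ⟨p, hp, k, Q, hQ, ι, h1, h2, h3⟩ := abf_min ht' hs' hKn hK hmin A' hA'
  refine ⟨p, hp, k, Q, hQ, fun x => ι (π x), ?_, ?_, ?_⟩
  · intro x hx y hy
    change ι (π (x * y)) = ι (π x) + ι (π y)
    rw [map_mul]
    exact h1 _ (Subgroup.mem_map_of_mem π hx) _ (Subgroup.mem_map_of_mem π hy)
  · intro x hx
    rw [h2 _ (Subgroup.mem_map_of_mem π hx)]
    exact ⟨fun h => hkerπ.le (MonoidHom.mem_ker.mpr h),
      fun h => MonoidHom.mem_ker.mp (hkerπ.symm.le h)⟩
  · intro g
    obtain ⟨s, hs1, hs2⟩ := h3 (π g)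
    refine ⟨s, hs1, fun x hx => ?_⟩
    change ι (π (g * x * g⁻¹)) = s (ι (π x))
    rw [map_mul, map_mul, map_inv]
    exact hs2 _ (Subgroup.mem_map_of_mem π hx)

end Pool.Agent.LibUS10
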