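import Pool.Agent.LibUS10.Defs

/-!
TASK C (MP_199925_al): a countable group whose chief factors embed in the types `Ty t` has a
filtration over `ℚ ×ₗ ℕ`.
-/

namespace Pool.Agent.LibUS10

open Equiv

/-- A maximal chain of normal subgroups, as a set of subgroups. -/
private theorem taskC_exists_chain (H : Type) [Group H] :
    ∃ C : Set (Subgroup H), (∀ N ∈ C, N.Normal) ∧ (∀ A ∈ C, ∀ B ∈ C, A ≤ B ∨ B ≤ A) ∧
      ∀ L : Subgroup H, L.Normal → (∀ A ∈ C, A ≤ L ∨ L ≤ A) → L ∈ C := by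
  let NS := {N : Subgroup H // N.Normal}
  let D : Set NS := maxChain (· ≤ ·)
  have hD : IsMaxChain (· ≤ ·) D := maxChain_spec
  refine ⟨Subtype.val '' D, ?_, ?_, ?_⟩
  · rintro _ ⟨N, -, rfl⟩
    exact N.2
  · rintro _ ⟨A, hA, rfl⟩ _ ⟨B, hB, rfl⟩
    exact hD.1.total hA hB
  · intro L hL hcomp
    have h1 : IsChain (· ≤ ·) (insert (⟨L, hL⟩ : NS) D) := by
      refine hD.1.insert ?_
      intro A hA _
      exact (hcomp A.1 ⟨A, hA, rfl⟩).symm
    have h2 := hD.2 h1 (Set.subset_insert _ _)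
    exact ⟨⟨L, hL⟩, h2 ▸ Set.mem_insert _ _, rfl⟩

section chain

variable {H : Type} [Group H] {C : Set (Subgroup H)}

/-- The smallest member of the chain containing `h`. -/
private def taskC_Le (C : Set (Subgroup H)) (h : H) : Subgroup H := sInf {N ∈ C | h ∈ N}

/-- The union of the members of the chain properly contained in `M`. -/
private def taskC_Lt (C : Set (Subgroup H)) (M : Subgroup H) : Subgroup H := sSup {N ∈ C | N < M}

private theorem taskC_mem_Le (h : H) : h ∈ taskC_Le C h := by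
  rw [taskC_Le, Subgroup.mem_sInf]
  exact fun N hN => hN.2

private theorem taskC_Le_le {A : Subgroup H} (hA : A ∈ C) {h : H} (hh : h ∈ A) :
    taskC_Le C h ≤ A := sInf_le ⟨hA, hh⟩

private theorem taskC_Le_le_iff {A : Subgroup H} (hA : A ∈ C) {h : H} :
    taskC_Le C h ≤ A ↔ h ∈ A := ⟨fun h1 => h1 (taskC_mem_Le h), taskC_Le_le hA⟩

private theorem taskC_Le_normal (h1 : ∀ N ∈ C, N.Normal) (h : H) : (taskC_Le C h).Normal := by
  refine ⟨fun n hn g => ?_⟩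
  rw [taskC_Le, Subgroup.mem_sInf] at hn ⊢
  exact fun N hN => (h1 N hN.1).conj_mem n (hn N hN) g

private theorem taskC_Le_mem (h1 : ∀ N ∈ C, N.Normal) (h2 : ∀ A ∈ C, ∀ B ∈ C, A ≤ B ∨ B ≤ A)
    (h3 : ∀ L : Subgroup H, L.Normal → (∀ A ∈ C, A ≤ L ∨ L ≤ A) → L ∈ C) (h : H) :
    taskC_Le C h ∈ C := by
  refine h3 _ (taskC_Le_normal h1 h) ?_
  intro A hA
  by_cases hh : h ∈ A
  · exact Or.inr (taskC_Le_le hA hh)
  · left
    refine le_sInf ?_
    rintro N ⟨hN, hhN⟩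
    rcases h2 A hA N hN with h4 | h4
    · exact h4
    · exact absurd (h4 hhN) hh

private theorem taskC_bot_mem
    (h3 : ∀ L : Subgroup H, L.Normal → (∀ A ∈ C, A ≤ L ∨ L ≤ A) → L ∈ C) : (⊥ : Subgroup H) ∈ C :=
  h3 ⊥ inferInstance fun _ _ => Or.inr bot_le

private theorem taskC_mem_Lt (h2 : ∀ A ∈ C, ∀ B ∈ C, A ≤ B ∨ B ≤ A)
    (h3 : ∀ L : Subgroup H, L.Normal → (∀ A ∈ C, A ≤ L ∨ L ≤ A) → L ∈ C) {M : Subgroup H}
    (hM : ⊥ < M) {x : H} : x ∈ taskC_Lt C M ↔ ∃ N ∈ C, N < M ∧ x ∈ N := by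
  have hne : {N | N ∈ C ∧ N < M}.Nonempty := ⟨⊥, taskC_bot_mem h3, hM⟩
  have hdir : DirectedOn (· ≤ ·) {N | N ∈ C ∧ N < M} := by
    rintro A ⟨hA, hA'⟩ B ⟨hB, hB'⟩
    rcases h2 A hA B hB with h4 | h4
    · exact ⟨B, ⟨hB, hB'⟩, h4, le_rfl⟩
    · exact ⟨A, ⟨hA, hA'⟩, le_rfl, h4⟩
  rw [taskC_Lt, Subgroup.mem_sSup_of_directedOn hne hdir]
  constructor
  · rintro ⟨N, ⟨h4, h5⟩, h6⟩
    exact ⟨N, h4, h5, h6⟩
  · rintro ⟨N, h4, h5, h6⟩
    exact ⟨N, ⟨h4, h5⟩, h6⟩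

private theorem taskC_le_Lt {M N : Subgroup H} (hN : N ∈ C) (h : N < M) : N ≤ taskC_Lt C M :=
  le_sSup ⟨hN, h⟩

private theorem taskC_Lt_le {M : Subgroup H} : taskC_Lt C M ≤ M :=
  sSup_le fun _ hN => hN.2.le

private theorem taskC_chief (h1 : ∀ N ∈ C, N.Normal) (h2 : ∀ A ∈ C, ∀ B ∈ C, A ≤ B ∨ B ≤ A)
    (h3 : ∀ L : Subgroup H, L.Normal → (∀ A ∈ C, A ≤ L ∨ L ≤ A) → L ∈ C) {h : H} (hh : h ≠ 1) :
    IsChief (taskC_Le C h) (taskC_Lt C (taskC_Le C h)) := by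
  have hM : ⊥ < taskC_Le C h := by
    refine bot_lt_iff_ne_bot.2 fun h4 => hh ?_
    have := taskC_mem_Le (C := C) h
    rwa [h4, Subgroup.mem_bot] at this
  have hMC := taskC_Le_mem h1 h2 h3 h
  have hnot : h ∉ taskC_Lt C (taskC_Le C h) := by
    rw [taskC_mem_Lt h2 h3 hM]
    rintro ⟨N, h4, h5, h6⟩
    exact absurd (taskC_Le_le h4 h6) (not_le_of_gt h5)
  refine ⟨taskC_Le_normal h1 h, ?_, ?_, ?_⟩
  · refine ⟨fun n hn g => ?_⟩
    rw [taskC_mem_Lt h2 h3 hM] at hn ⊢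
    obtain ⟨N, h4, h5, h6⟩ := hn
    exact ⟨N, h4, h5, (h1 N h4).conj_mem n h6 g⟩
  · refine lt_of_le_of_ne taskC_Lt_le fun h4 => hnot ?_
    rw [h4]
    exact taskC_mem_Le h
  · intro L hL hL1 hL2
    have hLC : L ∈ C := by
      refine h3 L hL fun A hA => ?_
      rcases h2 A hA _ hMC with h4 | h4
      · rcases eq_or_lt_of_le h4 with h5 | h5
        · exact Or.inr (hL2.trans h5.ge)
        · exact Or.inl ((taskC_le_Lt hA h5).trans hL1)
      · exact Or.inr (hL2.trans h4)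
    rcases eq_or_lt_of_le hL2 with h5 | h5
    · exact Or.inr h5
    · exact Or.inl (le_antisymm (taskC_le_Lt hLC h5) hL1)

end chain

theorem exists_filt (Ty : ℕ → LType) {H : Type} [Group H] [Countable H]
    (h : ∀ M N : Subgroup H, IsChief M N → ∃ (t : ℕ) (ι : H → (Ty t).V),
      (∀ x ∈ M, ∀ y ∈ M, ι (x * y) = ι x + ι y) ∧ (∀ x ∈ M, ι x = 0 ↔ x ∈ N) ∧
      ∀ g, ∃ s ∈ (Ty t).S, ∀ x ∈ M, ι (g * x * g⁻¹) = s (ι x)) :
    Nonempty (Filt (fun i : ℚ ×ₗ ℕ => Ty (ofLex i).2) H) := by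
  classical
  obtain ⟨C, h1, h2, h3⟩ := taskC_exists_chain H
  -- the indexing set of the factors
  let Λ : Type := {M : Subgroup H // ∃ x : H, x ≠ 1 ∧ taskC_Le C x = M}
  have hΛC : ∀ M : Λ, M.1 ∈ C := by
    rintro ⟨M, x, -, rfl⟩
    exact taskC_Le_mem h1 h2 h3 x
  have hchief : ∀ M : Λ, IsChief M.1 (taskC_Lt C M.1) := by
    rintro ⟨M, x, hx, rfl⟩
    exact taskC_chief h1 h2 h3 hx
  have hcount : Countable Λ := by
    have hs : Function.Surjective (fun x : {x : H // x ≠ 1} =>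
        (⟨taskC_Le C x.1, x.1, x.2, rfl⟩ : Λ)) := by
      rintro ⟨M, x, hx, rfl⟩
      exact ⟨⟨x, hx⟩, rfl⟩
    exact hs.countable
  let lo : LinearOrder Λ :=
    { (inferInstance : PartialOrder Λ) with
      le_total := fun A B => h2 A.1 (hΛC A) B.1 (hΛC B)
      toDecidableLE := Classical.decRel _ }
  obtain ⟨f⟩ : Nonempty (Λ ↪o ℚ) := Order.embedding_from_countable_to_dense Λ ℚ
  have hf : ∀ A B : Λ, f A < f B ↔ A.1 < B.1 := fun A B => f.lt_iff_lt
  choose t ι hι1 hι2 hι3 using fun M : Λ => h M.1 (taskC_Lt C M.1) (hchief M)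
  let pos : Λ → ℚ ×ₗ ℕ := fun M => toLex (f M, t M)
  have hpos : ∀ A B : Λ, pos A < pos B ↔ A.1 < B.1 := by
    intro A B
    constructor
    · intro h4
      rcases Prod.Lex.toLex_lt_toLex.1 h4 with h5 | ⟨h5, h6⟩
      · exact (hf A B).1 h5
      · exfalso
        have h7 : A = B := f.injective h5
        subst h7
        exact lt_irrefl _ h6
    · intro h4
      exact Prod.Lex.toLex_lt_toLex.2 (Or.inl ((hf A B).2 h4))
  have hpos' : ∀ A B : Λ, pos A ≤ pos B ↔ A.1 ≤ B.1 := by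
    intro A B
    rw [← not_lt, hpos]
    constructor
    · intro h4
      rcases h2 A.1 (hΛC A) B.1 (hΛC B) with h5 | h5
      · exact h5
      · rcases eq_or_lt_of_le h5 with h6 | h6
        · exact h6.ge
        · exact absurd h6 h4
    · intro h4
      exact not_lt_of_ge h4
  let v : H → WithBot (ℚ ×ₗ ℕ) := fun x =>
    if hx : x = 1 then ⊥ else ((pos ⟨taskC_Le C x, x, hx, rfl⟩ : ℚ ×ₗ ℕ) : WithBot (ℚ ×ₗ ℕ))
  have hv1 : v 1 = ⊥ := dif_pos rfl
  have hv : ∀ x (hx : x ≠ 1),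
      v x = ((pos ⟨taskC_Le C x, x, hx, rfl⟩ : ℚ ×ₗ ℕ) : WithBot (ℚ ×ₗ ℕ)) :=
    fun x hx => dif_neg hx
  have hle : ∀ (M : Λ) (x : H), v x ≤ (pos M : WithBot (ℚ ×ₗ ℕ)) ↔ x ∈ M.1 := by
    intro M x
    by_cases hx : x = 1
    · subst hx
      rw [hv1]
      exact ⟨fun _ => M.1.one_mem, fun _ => bot_le⟩
    · rw [hv x hx, WithBot.coe_le_coe, hpos']
      exact taskC_Le_le_iff (hΛC M)
  have hlt : ∀ (M : Λ) (x : H), v x < (pos M : WithBot (ℚ ×ₗ ℕ)) ↔ x ∈ taskC_Lt C M.1 := by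
    intro M x
    have hM : ⊥ < M.1 := lt_of_le_of_lt bot_le (hchief M).lt
    by_cases hx : x = 1
    · subst hx
      rw [hv1]
      exact ⟨fun _ => (taskC_Lt C M.1).one_mem, fun _ => WithBot.bot_lt_coe _⟩
    · rw [hv x hx, WithBot.coe_lt_coe, hpos, taskC_mem_Lt h2 h3 hM]
      constructor
      · intro h4
        exact ⟨taskC_Le C x, taskC_Le_mem h1 h2 h3 x, h4, taskC_mem_Le x⟩
      · rintro ⟨N, h4, h5, h6⟩
        exact lt_of_le_of_lt (taskC_Le_le h4 h6) h5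
  have hself : ∀ x (hx : x ≠ 1) y, v y ≤ v x ↔ y ∈ taskC_Le C x := by
    intro x hx y
    rw [hv x hx]
    exact hle ⟨taskC_Le C x, x, hx, rfl⟩ y
  have hvconj : ∀ g x, v (g * x * g⁻¹) ≤ v x := by
    intro g x
    by_cases hx : x = 1
    · subst hx
      simp
    · rw [hself x hx]
      exact (taskC_Le_normal h1 x).conj_mem x (taskC_mem_Le x) g
  -- the embeddings of the factors
  have key : ∀ i : ℚ ×ₗ ℕ, ∃ j : H → (Ty (ofLex i).2).V,
      (∀ g x : H, v g ≤ i → v x ≤ i → j (g * x) = j g + j x) ∧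
      (∀ x : H, v x ≤ i → (j x = 0 ↔ v x < i)) ∧
      ∀ g : H, ∃ s ∈ (Ty (ofLex i).2).S, ∀ x, v x ≤ i → j (g * x * g⁻¹) = s (j x) := by
    intro i
    by_cases hi : ∃ M : Λ, pos M = i
    · obtain ⟨M, rfl⟩ := hi
      refine ⟨ι M, ?_, ?_, ?_⟩
      · intro g x hg hx
        exact hι1 M g ((hle M g).1 hg) x ((hle M x).1 hx)
      · intro x hx
        rw [hlt]
        exact hι2 M x ((hle M x).1 hx)
      · intro g
        obtain ⟨s, hs, h4⟩ := hι3 M g
        exact ⟨s, hs, fun x hx => h4 x ((hle M x).1 hx)⟩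
    · refine ⟨fun _ => 0, ?_, ?_, ?_⟩
      · intro g x _ _
        rw [add_zero]
      · intro x hx
        refine ⟨fun _ => lt_of_le_of_ne hx ?_, fun _ => rfl⟩
        intro h4
        by_cases hx1 : x = 1
        · subst hx1
          rw [hv1] at h4
          exact WithBot.bot_ne_coe h4
        · rw [hv x hx1] at h4
          exact hi ⟨_, WithBot.coe_injective h4⟩
      · intro g
        obtain ⟨s, hs, -⟩ := (Ty (ofLex i).2).P_aff 0 1 (one_mem _)
        exact ⟨s, hs, fun x _ => (map_zero s).symm⟩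
  choose j hj1 hj2 hj3 using key
  refine ⟨{ v := v, ι := j, v_bot := ?_, v_mul := ?_, v_inv := ?_, v_conj := ?_,
            ι_mul := hj1, ι_zero := hj2, ι_conj := hj3 }⟩
  · intro x
    refine ⟨fun h4 => ?_, fun h4 => by rw [h4, hv1]⟩
    by_contra hx
    rw [hv x hx] at h4
    exact WithBot.coe_ne_bot h4
  · intro g x
    by_cases hg : g = 1
    · subst hg
      rw [one_mul]
      exact le_max_right _ _
    by_cases hx : x = 1
    · subst hx
      rw [mul_one]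
      exact le_max_left _ _
    rcases le_total (v g) (v x) with h4 | h4
    · refine le_trans ?_ (le_max_right _ _)
      rw [hself x hx] at h4 ⊢
      exact mul_mem h4 (taskC_mem_Le x)
    · refine le_trans ?_ (le_max_left _ _)
      rw [hself g hg] at h4 ⊢
      exact mul_mem (taskC_mem_Le g) h4
  · intro x
    by_cases hx : x = 1
    · subst hx
      rw [inv_one]
    · refine le_antisymm ?_ ?_
      · rw [hself x hx]
        exact inv_mem (taskC_mem_Le x)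
      · rw [hself x⁻¹ (inv_ne_one.2 hx)]
        exact inv_mem_iff.1 (taskC_mem_Le x⁻¹)
  · intro g x
    refine le_antisymm (hvconj g x) ?_
    have h4 := hvconj g⁻¹ (g * x * g⁻¹)
    have h5 : g⁻¹ * (g * x * g⁻¹) * g⁻¹⁻¹ = x := by group
    rwa [h5] at h4

end Pool.Agent.LibUS10
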