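import Mathlib

/-!
Definitions for MP_199925_al: generalised wreath products over a linearly ordered set of
linear types, filtrations of groups with linear factors, and pure actions.
-/

namespace Pool.Agent.LibUS10

open Equiv

/-- A linear type: an additive group `V`, a group `S` of additive automorphisms, an increasing
sequence of finite soluble groups `P n` of affine maps of `V` with linear parts in `S`, containing
eventually each translation and each element of `S`, and compatible `P n`-equivariant retractions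
`θ n` with finite image. -/
structure LType where
  V : Type
  [grp : AddCommGroup V]
  S : Set (V ≃+ V)
  S_symm : ∀ s ∈ S, s.symm ∈ S
  S_trans : ∀ s ∈ S, ∀ t ∈ S, s.trans t ∈ S
  P : ℕ → Subgroup (Perm V)
  θ : ℕ → V → V
  P_mono : Monotone P
  P_fin : ∀ n, Finite (P n)
  P_sol : ∀ n, Group.IsSolvable (P n)
  P_aff : ∀ n, ∀ e ∈ P n, ∃ s ∈ S, ∀ x y, e (x + y) = e x + s y
  P_trans : ∀ c : V, ∃ n, Equiv.addRight c ∈ P n
  P_lin : ∀ s ∈ S, ∃ n, s.toEquiv ∈ P n
  θ_fin : ∀ n, (Set.range (θ n)).Finite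
  θ_equiv : ∀ n, ∀ e ∈ P n, ∀ x, θ n (e x) = e (θ n x)
  θ_comp : ∀ m n, m ≤ n → ∀ x, θ m (θ n x) = θ m x

attribute [instance] LType.grp

variable {I : Type} [LinearOrder I] (T : I → LType)

/-- The set on which the generalised wreath product acts. -/
abbrev Om := ∀ i, (T i).V

/-- `ω` and `ω'` agree above level `i`, as far as the levels in `J` and the retractions `θ n`
can see. -/
def Rel (J : Finset I) (n : ℕ) (i : I) (ω ω' : Om T) : Prop :=
  ∀ j ∈ J, i < j → (T j).θ n (ω j) = (T j).θ n (ω' j)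

/-- `g` acts at each level `i` by elements of `P n` (trivially if `i ∉ J`) which depend on the
levels in `J` above `i` only, modulo `θ n`. -/
def Adm (J : Finset I) (n : ℕ) (g : Perm (Om T)) : Prop :=
  ∃ e : ∀ i, Om T → Perm (T i).V,
    (∀ i ω, e i ω ∈ (T i).P n) ∧ (∀ i, i ∉ J → ∀ ω, e i ω = 1) ∧
    (∀ i ω ω', Rel T J n i ω ω' → e i ω = e i ω') ∧ ∀ ω i, g ω i = e i ω (ω i)

theorem Adm.mul {J : Finset I} {n : ℕ} {g h : Perm (Om T)} (hg : Adm T J n g)
    (hh : Adm T J n h) : Adm T J n (g * h) := by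
  obtain ⟨e, he1, he2, he3, he4⟩ := hg
  obtain ⟨f, hf1, hf2, hf3, hf4⟩ := hh
  refine ⟨fun i ω => e i (h ω) * f i ω, fun i ω => mul_mem (he1 _ _) (hf1 _ _),
    fun i hi ω => ?_, fun i ω ω' hr => ?_, fun ω i => ?_⟩
  · simp only [he2 i hi, hf2 i hi, mul_one]
  · have h1 : Rel T J n i (h ω) (h ω') := by
      intro j hj hij
      rw [hf4, hf4, (T j).θ_equiv n _ (hf1 _ _), (T j).θ_equiv n _ (hf1 _ _),
        hf3 j ω ω' (fun k hk hjk => hr k hk (hij.trans hjk)), hr j hj hij]
    simp only [he3 i _ _ h1, hf3 i _ _ hr]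
  · rw [Perm.mul_apply, he4, Perm.mul_apply, hf4]

theorem Adm.one (J : Finset I) (n : ℕ) : Adm T J n 1 :=
  ⟨fun _ _ => 1, fun _ _ => one_mem _, fun _ _ _ => rfl, fun _ _ _ _ => rfl, fun _ _ => rfl⟩

theorem Rel.mono {J J' : Finset I} {m n : ℕ} (hJ : J ⊆ J') (hn : m ≤ n) {i : I} {ω ω' : Om T}
    (h : Rel T J' n i ω ω') : Rel T J m i ω ω' := by
  intro j hj hij
  rw [← (T j).θ_comp m n hn, h j (hJ hj) hij, (T j).θ_comp m n hn]

theorem Adm.mono {J J' : Finset I} {m n : ℕ} (hJ : J ⊆ J') (hn : m ≤ n) {g : Perm (Om T)}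
    (hg : Adm T J m g) : Adm T J' n g := by
  obtain ⟨e, he1, he2, he3, he4⟩ := hg
  exact ⟨e, fun i ω => (T i).P_mono hn (he1 i ω), fun i hi => he2 i (fun h => hi (hJ h)),
    fun i ω ω' hr => he3 i ω ω' (Rel.mono T hJ hn hr), he4⟩

/-- The finite iterated wreath product with levels in `J`. -/
def GJ (J : Finset I) (n : ℕ) : Subgroup (Perm (Om T)) where
  carrier := {g | Adm T J n g ∧ Adm T J n g⁻¹}
  mul_mem' := by
    rintro g h ⟨hg, hg'⟩ ⟨hh, hh'⟩
    refine ⟨Adm.mul T hg hh, ?_⟩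
    rw [mul_inv_rev]
    exact Adm.mul T hh' hg'
  one_mem' := ⟨Adm.one T J n, by rw [inv_one]; exact Adm.one T J n⟩
  inv_mem' := by
    rintro g ⟨hg, hg'⟩
    exact ⟨hg', by rwa [inv_inv]⟩

theorem GJ_mono {J J' : Finset I} {m n : ℕ} (hJ : J ⊆ J') (hn : m ≤ n) :
    GJ T J m ≤ GJ T J' n :=
  fun _ hg => ⟨Adm.mono T hJ hn hg.1, Adm.mono T hJ hn hg.2⟩

/-- The generalised wreath product: the union of the `GJ J n`. -/
def UG : Subgroup (Perm (Om T)) where
  carrier := {g | ∃ J n, g ∈ GJ T J n}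
  mul_mem' := by
    classical
    rintro g h ⟨J, n, hg⟩ ⟨J', n', hh⟩
    exact ⟨J ∪ J', max n n', mul_mem (GJ_mono T Finset.subset_union_left (le_max_left _ _) hg)
      (GJ_mono T Finset.subset_union_right (le_max_right _ _) hh)⟩
  one_mem' := ⟨∅, 0, one_mem _⟩
  inv_mem' := by
    rintro g ⟨J, n, hg⟩
    exact ⟨J, n, inv_mem hg⟩

/-- A filtration of `H` with levels in `I`, given by a function `v` (`v h` is the level of `h`,
the larger the closer to the top of `H`), with an embedding `ι i` of the factor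
`{h | v h ≤ i} / {h | v h < i}` into `(T i).V` which is equivariant up to `(T i).S`. -/
structure Filt (H : Type) [Group H] where
  v : H → WithBot I
  v_bot : ∀ h, v h = ⊥ ↔ h = 1
  v_mul : ∀ g h, v (g * h) ≤ max (v g) (v h)
  v_inv : ∀ h, v h⁻¹ = v h
  v_conj : ∀ g h, v (g * h * g⁻¹) = v h
  ι : ∀ i, H → (T i).V
  ι_mul : ∀ (i : I) (g h : H), v g ≤ i → v h ≤ i → ι i (g * h) = ι i g + ι i h
  ι_zero : ∀ (i : I) (h : H), v h ≤ i → (ι i h = 0 ↔ v h < i)
  ι_conj : ∀ (i : I) (g : H), ∃ s ∈ (T i).S, ∀ h, v h ≤ i → ι i (g * h * g⁻¹) = s (ι i h)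

variable {T}

/-- Restriction of a filtration. -/
def Filt.comap {A H : Type} [Group A] [Group H] (F : Filt T H) (f : A →* H)
    (hf : Function.Injective f) : Filt T A where
  v a := F.v (f a)
  v_bot a := by rw [F.v_bot, map_eq_one_iff f hf]
  v_mul a b := by rw [map_mul]; exact F.v_mul _ _
  v_inv a := by rw [map_inv]; exact F.v_inv _
  v_conj a b := by rw [map_mul, map_mul, map_inv]; exact F.v_conj _ _
  ι i a := F.ι i (f a)
  ι_mul i a b ha hb := by rw [map_mul]; exact F.ι_mul i _ _ ha hb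
  ι_zero i a ha := F.ι_zero i _ ha
  ι_conj i a := by
    obtain ⟨s, hs, h⟩ := F.ι_conj i (f a)
    refine ⟨s, hs, fun b hb => ?_⟩
    rw [map_mul, map_mul, map_inv]
    exact h _ hb

/-- `α` is pure at level `i`. -/
def PureAt {H : Type} [Group H] (F : Filt T H) (α : H →* Perm (Om T)) (i : I) : Prop :=
  ∀ ω : Om T, ∃ s ∈ (T i).S, ∀ h : H, F.v h ≤ i → ∀ ω' : Om T, (∀ j, i < j → ω' j = ω j) →
    α h ω' i = ω' i + s (F.ι i h)

/-- `α` is pure at all levels. -/
def Pure {H : Type} [Group H] (F : Filt T H) (α : H →* Perm (Om T)) : Prop :=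
  ∀ i, PureAt F α i

theorem Pure.comap {A H : Type} [Group A] [Group H] {F : Filt T H} {f : A →* H}
    (hf : Function.Injective f) {α : H →* Perm (Om T)} (h : Pure F α) :
    Pure (F.comap f hf) (α.comp f) := by
  intro i ω
  obtain ⟨s, hs, h1⟩ := h i ω
  exact ⟨s, hs, fun a ha ω' hω' => h1 (f a) ha ω' hω'⟩

/-- All finitely generated subgroups are soluble. -/
def LocSolvable (H : Type) [Group H] : Prop :=
  ∀ S : Finset H, Group.IsSolvable (Subgroup.closure (S : Set H))

/-- All finitely generated subgroups are nilpotent. -/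
def LocNilpotent (H : Type) [Group H] : Prop :=
  ∀ S : Finset H, Group.IsNilpotent (Subgroup.closure (S : Set H))

/-- All finitely generated subgroups are finite. -/
def LocFinite (H : Type) [Group H] : Prop :=
  ∀ S : Finset H, Finite (Subgroup.closure (S : Set H))

/-- `M / N` is a chief factor of `H`: `N < M` are normal and there is no normal subgroup of `H`
strictly between them. -/
structure IsChief {H : Type} [Group H] (M N : Subgroup H) : Prop where
  normal_top : M.Normal
  normal_bot : N.Normal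
  lt : N < M
  min : ∀ L : Subgroup H, L.Normal → N ≤ L → L ≤ M → L = N ∨ L = M

end Pool.Agent.LibUS10
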