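import Pool.Agent.LibUS10.PureBase

/-!
TASK E (MP_199925_al): a finite group with a filtration has a pure action.
-/

namespace Pool.Agent.LibUS10

open Equiv

variable {I : Type} [LinearOrder I] {T : I → LType}

theorem pureAt_of_not_level {A : Type} [Group A] (F : Filt T A) {α : A →* Perm (Om T)}
    {J : Finset I} {n : ℕ} (hα : ∀ a, α a ∈ GJ T J n) {i : I} (hiJ : i ∉ J)
    (hi : ∀ a, F.v a ≠ i) : PureAt F α i := by
  intro ω
  obtain ⟨s, hs, _⟩ := F.ι_conj i 1
  refine ⟨s, hs, fun a ha ω' _ => ?_⟩
  obtain ⟨e, he⟩ := (hα a).1.exists_fib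
  rw [he.app, he.one i hiJ, Perm.one_apply, (F.ι_zero i a ha).2 (lt_of_le_of_ne ha (hi a)),
    map_zero, add_zero]

theorem exist_step {A : Type} [Group A] [Finite A] (F : Filt T A) {α : A →* Perm (Om T)}
    {s : Finset I} {n : ℕ} (hα : ∀ a, α a ∈ GJ T s n) {j : I} (hlt : ∀ i ∈ s, j < i)
    (pα : ∀ i, j < i → PureAt F α i) :
    ∃ N, ∃ β : A →* Perm (Om T), (∀ a, β a ∈ GJ T (insert j s) N) ∧
      (∀ i ∈ insert j s, PureAt F β i) := by
  classical
  have hjs : j ∉ s := fun h => lt_irrefl _ (hlt j h)
  choose e he using fun a => (hα a).1.exists_fib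
  let Y := Quotient (relSetoid T s n j)
  let q : Om T → Y := fun ω => Quotient.mk (relSetoid T s n j) ω
  have hq : ∀ ω ω', q ω = q ω' ↔ Rel T s n j ω ω' := fun ω ω' =>
    ⟨fun h => Quotient.exact h, fun h => Quotient.sound h⟩
  let act : MulAction A Y :=
    { smul := fun a y => Quotient.map' (s₁ := relSetoid T s n j) (s₂ := relSetoid T s n j)
        (fun ω => α a ω) (fun ω ω' h => (he a).rel_map h) y
      one_smul := by
        intro y
        induction y using Quotient.inductionOn with
        | h ω =>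
          change q (α 1 ω) = q ω
          rw [map_one, Perm.one_apply]
      mul_smul := by
        intro a b y
        induction y using Quotient.inductionOn with
        | h ω =>
          change q (α (a * b) ω) = q (α a (α b ω))
          rw [map_mul, Perm.mul_apply] }
  have hsmul : ∀ (a : A) (ω : Om T), a • q ω = q (α a ω) := fun a ω => rfl
  let base : Y → Y := fun y => (Quotient.mk (MulAction.orbitRel A Y) y).out
  have hbase : ∀ (b : A) (y : Y), base (b • y) = base y := by
    intro b y
    have : (Quotient.mk (MulAction.orbitRel A Y) (b • y)) =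
        Quotient.mk (MulAction.orbitRel A Y) y := Quotient.sound ⟨b, rfl⟩
    simp only [base, this]
  have helt : ∀ y : Y, ∃ c : A, c • base y = y := by
    intro y
    have h1 : (MulAction.orbitRel A Y) (base y) y := Quotient.mk_out (s := MulAction.orbitRel A Y) y
    obtain ⟨c, hc⟩ := (MulAction.orbitRel A Y).symm h1
    exact ⟨c, hc⟩
  choose elt helt using helt
  have hstab : ∀ (u : A) (y : Y), u • y = y → F.v u ≤ j := by
    intro u y hy
    induction y using Quotient.inductionOn with
    | h ω =>
      refine level_le_of_rel pα (he u) (ω := ω) ?_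
      rw [← hq, ← hsmul]
      exact hy
  have hstab' : ∀ (u : A), F.v u ≤ j → ∀ y : Y, u • y = y := by
    intro u hu y
    induction y using Quotient.inductionOn with
    | h ω =>
      change q (α u ω) = q ω
      rw [hq]
      exact Rel.of_eq (fun k hk => (pα k hk).fix_above hu hk ω)
  let u : A → Y → A := fun b y => (elt (b • y))⁻¹ * b * elt y
  have hu : ∀ b y, F.v (u b y) ≤ j := by
    intro b y
    apply hstab _ (base y)
    have h1 := helt (b • y)
    rw [hbase] at h1
    simp only [u]
    rw [mul_smul, mul_smul, helt y, inv_smul_eq_iff, h1]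
  have hu_mul : ∀ b c y, u (b * c) y = u b (c • y) * u c y := by
    intro b c y
    simp only [u, mul_smul]
    group
  let d : A → Y → (T j).V := fun b y => F.ι j (u b y)
  have hd : ∀ b c y, d (b * c) y = d c y + d b (c • y) := by
    intro b c y
    simp only [d]
    rw [hu_mul, F.ι_mul j _ _ (hu _ _) (hu _ _), add_comm]
  have hfinY : Finite Y := relSetoid_finite T s n j
  cases nonempty_fintype Y
  cases nonempty_fintype A
  choose m hm using fun x : A × Y => (T j).P_trans (d x.1 x.2)
  let N := max n (Finset.univ.sup m)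
  have hnN : n ≤ N := le_max_left _ _
  have hmN : ∀ x, m x ≤ N := fun x => (Finset.le_sup (f := m) (Finset.mem_univ x)).trans
    (le_max_right _ _)
  let f : A → Om T → Perm (T j).V := fun b ω => Equiv.addRight (d b (q ω))
  have hfP : ∀ b ω, f b ω ∈ (T j).P N := fun b ω => (T j).P_mono (hmN _) (hm (b, q ω))
  have hf : ∀ b ω ω', Rel T (insert j s) N j ω ω' → f b ω = f b ω' := fun b ω ω' hr => by
    simp only [f]
    rw [(hq ω ω').2 (Rel.mono T (Finset.subset_insert _ _) hnN hr)]
  let σ : A → Perm (Om T) := fun b => single j (f b) (fun ω x => hf b _ _ (Rel.update le_rfl ω x))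
  have hσ : ∀ b, σ b ∈ GJ T (insert j s) N := fun b =>
    single_mem (Finset.mem_insert_self _ _) (f b) (hfP b) (hf b)
  have hσa : ∀ b ω, σ b ω = Function.update ω j (ω j + d b (q ω)) := fun b ω => rfl
  -- `α b` does not see the level `j`
  have hα1 : ∀ b ω ω' i, i ≠ j → (∀ k, k ≠ j → ω' k = ω k) → α b ω' i = α b ω i := by
    intro b ω ω' i hi h
    rw [(he b).app, (he b).app, h i hi]
    by_cases his : i ∈ s
    · rw [(he b).rel i ω' ω (Rel.of_eq (fun k hk => h k ((hlt i his).trans hk).ne'))]
    · rw [(he b).one i his, (he b).one i his]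
  have hα2 : ∀ b ω, α b ω j = ω j := by
    intro b ω
    rw [(he b).app, (he b).one j hjs, Perm.one_apply]
  let g : A → Perm (Om T) := fun b => α b * σ b
  have hg1 : ∀ b ω i, i ≠ j → g b ω i = α b ω i := by
    intro b ω i hi
    refine hα1 b ω _ i hi (fun k hk => ?_)
    rw [hσa, Function.update_of_ne hk]
  have hg2 : ∀ b ω, g b ω j = ω j + d b (q ω) := by
    intro b ω
    change α b (σ b ω) j = _
    rw [hα2, hσa, Function.update_self]
  have hqg : ∀ b ω, q (g b ω) = b • q ω := by
    intro b ω
    rw [hsmul, hq]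
    exact Rel.of_eq (fun k hk => hg1 b ω k hk.ne')
  have hgmul : ∀ b c, g (b * c) = g b * g c := by
    intro b c
    refine Equiv.ext (fun ω => funext (fun i => ?_))
    change g (b * c) ω i = g b (g c ω) i
    by_cases hi : i = j
    · subst hi
      rw [hg2, hg2, hg2, hqg, hd, add_assoc]
    · rw [hg1 _ _ i hi, hg1 _ _ i hi, map_mul, Perm.mul_apply]
      exact (hα1 b _ _ i hi (fun k hk => hg1 c ω k hk)).symm
  refine ⟨N, MonoidHom.mk' g hgmul, fun b => mul_mem
    (GJ_mono T (Finset.subset_insert _ _) hnN (hα b)) (hσ b), fun i hi => ?_⟩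
  rcases Finset.mem_insert.1 hi with rfl | hi'
  · intro ω
    obtain ⟨t, ht, ht'⟩ := F.ι_conj i (elt (q ω))⁻¹
    refine ⟨t, ht, fun a ha ω' hω' => ?_⟩
    have h1 : q ω' = q ω := (hq _ _).2 (Rel.of_eq hω')
    change g a ω' i = _
    rw [hg2, h1]
    congr 1
    simp only [d, u]
    rw [hstab' a ha]
    have := ht' a ha
    rwa [inv_inv] at this
  · intro ω
    obtain ⟨t, ht, ht'⟩ := pα i (hlt i hi') ω
    refine ⟨t, ht, fun a ha ω' hω' => ?_⟩
    change g a ω' i = _
    rw [hg1 a ω' i (hlt i hi').ne']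
    exact ht' a ha ω' hω'

theorem exists_pure {A : Type} [Group A] [Finite A] (F : Filt T A) :
    ∃ α : A →* Perm (Om T), (∀ a, α a ∈ UG T) ∧ Pure F α := by
  classical
  cases nonempty_fintype A
  obtain ⟨L, hL⟩ : ∃ L : Finset I, ∀ i : I, i ∈ L ↔ ∃ a, F.v a = i := by
    have hfin : (Set.range (fun a : A => F.v a)).Finite := Set.finite_range _
    have h2 : {i : I | ∃ a, F.v a = i}.Finite := by
      refine Set.Finite.of_finite_image (f := fun i : I => (i : WithBot I))
        (hfin.subset ?_) (WithBot.coe_injective.injOn)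
      rintro _ ⟨i, ⟨a, ha⟩, rfl⟩
      exact ⟨a, ha⟩
    exact ⟨h2.toFinset, fun i => by simp⟩
  have main : ∀ s : Finset I, s ⊆ L → (∀ i ∈ s, ∀ k ∈ L, i < k → k ∈ s) →
      ∃ n, ∃ α : A →* Perm (Om T), (∀ a, α a ∈ GJ T s n) ∧ ∀ i ∈ s, PureAt F α i := by
    intro s
    refine Finset.induction_on_min s ?_ ?_
    · exact fun _ _ => ⟨0, 1, fun _ => one_mem _, fun i hi => absurd hi (by simp)⟩
    · intro j s hlt ih hs hup
      obtain ⟨n, α, hα, pα⟩ := ih (fun i hi => hs (Finset.mem_insert_of_mem hi))
        (fun i hi k hk hik => (Finset.mem_insert.1 (hup i (Finset.mem_insert_of_mem hi) k hk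
          hik)).resolve_left (by
            rintro rfl
            exact lt_asymm hik (hlt i hi)))
      refine exist_step F hα hlt (fun i hji => ?_)
      by_cases his : i ∈ s
      · exact pα i his
      · refine pureAt_of_not_level F hα his (fun a ha => his ?_)
        exact (Finset.mem_insert.1 (hup j (Finset.mem_insert_self _ _) i ((hL i).2 ⟨a, ha⟩)
          hji)).resolve_left hji.ne'
  obtain ⟨n, α, hα, pα⟩ := main L (Finset.Subset.refl _) (fun _ _ k hk _ => hk)
  refine ⟨α, fun a => ⟨L, n, hα a⟩, fun i => ?_⟩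
  by_cases hi : i ∈ L
  · exact pα i hi
  · exact pureAt_of_not_level F hα hi (fun a ha => hi ((hL i).2 ⟨a, ha⟩))

end Pool.Agent.LibUS10
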