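import Pool.Agent.LibUS10.PureHom
import Pool.Agent.LibUS10.PureExist

/-!
TASK G (MP_199925_al): a countable locally finite group with a filtration embeds in `UG T`.
-/

namespace Pool.Agent.LibUS10

open Equiv

variable {I : Type} [LinearOrder I] {T : I → LType}

theorem Pure.injective {H : Type} [Group H] {F : Filt T H} {α : H →* Perm (Om T)}
    (h : Pure F α) : Function.Injective α := by
  rw [injective_iff_map_eq_one]
  intro a ha
  by_contra hne
  obtain ⟨i, hi⟩ := F.exists_level hne
  obtain ⟨s, _, hs⟩ := h i (fun _ => 0)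
  have h1 := hs a hi.le (fun _ => 0) (fun _ _ => rfl)
  rw [ha, Perm.one_apply, zero_add] at h1
  have h2 : F.ι i a = 0 := by
    have := h1.symm
    rwa [EmbeddingLike.map_eq_zero_iff] at this
  have h3 := (F.ι_zero i a hi.le).1 h2
  rw [hi] at h3
  exact lt_irrefl _ h3

/-- Extension of pure actions. -/
theorem exists_extend {H : Type} [Group H] (F : Filt T H) {A B : Subgroup H} (hAB : A ≤ B)
    [Finite B] (α : A →* Perm (Om T)) (hα : ∀ a, α a ∈ UG T)
    (pα : Pure (F.comap A.subtype A.subtype_injective) α) :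
    ∃ β : B →* Perm (Om T), (∀ b, β b ∈ UG T) ∧
      Pure (F.comap B.subtype B.subtype_injective) β ∧
      ∀ a : A, β (Subgroup.inclusion hAB a) = α a := by
  have hA : Finite A := Finite.of_injective _ (Subgroup.inclusion_injective hAB)
  obtain ⟨β₀, hβ₀, pβ₀⟩ := exists_pure (F.comap B.subtype B.subtype_injective)
  have p1 : Pure (F.comap A.subtype A.subtype_injective)
      (β₀.comp (Subgroup.inclusion hAB)) := pβ₀.comap (Subgroup.inclusion_injective hAB)
  obtain ⟨g, hg, hgc⟩ := exists_conj _ (α := β₀.comp (Subgroup.inclusion hAB)) (β := α)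
    (fun a => hβ₀ _) hα p1 pα
  refine ⟨(MulAut.conj g).toMonoidHom.comp β₀, fun b => ?_, pβ₀.conj hg, fun a => ?_⟩
  · change g * β₀ b * g⁻¹ ∈ UG T
    exact mul_mem (mul_mem hg (hβ₀ b)) (inv_mem hg)
  · exact hgc a

theorem exists_embedding {H : Type} [Group H] [Countable H] (F : Filt T H) (hf : LocFinite H) :
    ∃ f : H →* UG T, Function.Injective f := by
  classical
  obtain ⟨e, he⟩ := exists_surjective_nat H
  obtain ⟨K, hK⟩ : ∃ K : ℕ → Subgroup H, ∀ n, K n =
      Subgroup.closure (((Finset.range n).image e : Finset H) : Set H) := ⟨_, fun _ => rfl⟩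
  have hfin : ∀ n, Finite (K n) := fun n => by rw [hK]; exact hf _
  have hmono : Monotone K := by
    intro m n hmn
    rw [hK, hK]
    apply Subgroup.closure_mono
    rw [Finset.coe_subset]
    exact Finset.image_subset_image (Finset.range_subset_range.2 hmn)
  have hex : ∀ h, ∃ n, h ∈ K n := by
    intro h
    obtain ⟨n, rfl⟩ := he h
    refine ⟨n + 1, ?_⟩
    rw [hK]
    apply Subgroup.subset_closure
    rw [Finset.mem_coe, Finset.mem_image]
    exact ⟨n, Finset.mem_range.2 (Nat.lt_succ_self n), rfl⟩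
  let St : ℕ → Type := fun n => {α : K n →* Perm (Om T) //
    (∀ a, α a ∈ UG T) ∧ Pure (F.comap (K n).subtype (K n).subtype_injective) α}
  have step : ∀ n (α : St n), ∃ β : St (n + 1), ∀ a : K n,
      β.1 (Subgroup.inclusion (hmono n.le_succ) a) = α.1 a := by
    intro n α
    have := hfin (n + 1)
    obtain ⟨β, h1, h2, h3⟩ := exists_extend F (hmono n.le_succ) α.1 α.2.1 α.2.2
    exact ⟨⟨β, h1, h2⟩, h3⟩
  choose nxt hnxt using step
  have h0 : Nonempty (St 0) := by
    have := hfin 0
    obtain ⟨β, h1, h2⟩ := exists_pure (F.comap (K 0).subtype (K 0).subtype_injective)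
    exact ⟨⟨β, h1, h2⟩⟩
  obtain ⟨α₀⟩ := h0
  let seq : ∀ n, St n := fun n => Nat.rec α₀ (fun n α => nxt n α) n
  have hseq : ∀ n (a : K n), (seq (n + 1)).1 (Subgroup.inclusion (hmono n.le_succ) a) =
      (seq n).1 a := fun n a => hnxt n (seq n) a
  have hcomp : ∀ m n (hmn : m ≤ n) (a : K m), (seq n).1 (Subgroup.inclusion (hmono hmn) a) =
      (seq m).1 a := by
    intro m n hmn
    induction n, hmn using Nat.le_induction with
    | base => intro a; rfl
    | succ n hmn ih =>
      intro a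
      rw [← ih a, ← hseq n]
      rfl
  let Φ : H → Perm (Om T) := fun h => (seq (Nat.find (hex h))).1 ⟨h, Nat.find_spec (hex h)⟩
  have hΦ : ∀ n (a : K n), (seq n).1 a = Φ a := by
    intro n a
    have h1 : Nat.find (hex (a : H)) ≤ n := Nat.find_min' _ a.2
    exact hcomp _ _ h1 ⟨a, Nat.find_spec (hex (a : H))⟩
  have hmul : ∀ g h, Φ (g * h) = Φ g * Φ h := by
    intro g h
    obtain ⟨m, hm⟩ := hex g
    obtain ⟨n, hn⟩ := hex h
    have hm' : g ∈ K (max m n) := hmono (le_max_left _ _) hm
    have hn' : h ∈ K (max m n) := hmono (le_max_right _ _) hn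
    have h1 := hΦ (max m n) ⟨g, hm'⟩
    have h2 := hΦ (max m n) ⟨h, hn'⟩
    have h3 := hΦ (max m n) (⟨g, hm'⟩ * ⟨h, hn'⟩)
    rw [map_mul, h1, h2] at h3
    exact h3.symm
  have hU : ∀ h, Φ h ∈ UG T := fun h => (seq _).2.1 _
  have hinj : ∀ h, Φ h = 1 → h = 1 := by
    intro h hh
    have := (seq (Nat.find (hex h))).2.2.injective (a₁ := ⟨h, Nat.find_spec (hex h)⟩) (a₂ := 1)
      (by rw [map_one]; exact hh)
    exact congrArg Subtype.val this
  refine ⟨(MonoidHom.mk' Φ hmul).codRestrict (UG T) hU, ?_⟩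
  rw [injective_iff_map_eq_one]
  intro a ha
  exact hinj a (congrArg Subtype.val ha)

end Pool.Agent.LibUS10
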