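import Pool.Agent.LibUS10.MonoDefs

/-!
TASK L (MP_199925_al): the linear type of monomial maps over the algebraic closure of a prime
field.
-/

namespace Pool.Agent.LibUS10

open Equiv

private theorem taskL_ia {α : Type} (f : Perm α) (x : α) : f⁻¹ (f x) = x :=
  f.symm_apply_apply x

private theorem taskL_ai {α : Type} (f : Perm α) (x : α) : f (f⁻¹ x) = x :=
  f.apply_symm_apply x

/-- Auxiliary: composites of the projections `r n, ..., r (n + k - 1)`. -/
private def taskL_comp {F : Type} (r : ℕ → F → F) (n : ℕ) : ℕ → F → F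
  | 0 => id
  | k + 1 => taskL_comp r n k ∘ r (n + k)

private theorem taskL_comp_add {F : Type} (r : ℕ → F → F) (m j k : ℕ) (x : F) :
    taskL_comp r m (j + k) x = taskL_comp r m j (taskL_comp r (m + j) k x) := by
  induction k generalizing x with
  | zero => rfl
  | succ k ih =>
    have h1 : taskL_comp r m (j + (k + 1)) x = taskL_comp r m (j + k) (r (m + (j + k)) x) := rfl
    have h2 : taskL_comp r (m + j) (k + 1) x = taskL_comp r (m + j) k (r (m + j + k) x) := rfl
    rw [h1, h2, ih, Nat.add_assoc]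

private theorem taskL_retr {F : Type} [Field F] (K : ℕ → Subfield F) (hK : Monotone K)
    (hex : ∀ x, ∃ n, x ∈ K n) (r : ℕ → F → F) (h1 : ∀ n x, r n x ∈ K n)
    (h2 : ∀ n, ∀ x ∈ K n, r n x = x) (h3 : ∀ n x y, r n (x + y) = r n x + r n y)
    (h4 : ∀ n, ∀ a ∈ K n, ∀ x, r n (a * x) = a * r n x) :
    ∃ τ : ℕ → F → F, (∀ n x, τ n x ∈ K n) ∧ (∀ n, ∀ x ∈ K n, τ n x = x) ∧
      (∀ n x y, τ n (x + y) = τ n x + τ n y) ∧ (∀ n, ∀ a ∈ K n, ∀ x, τ n (a * x) = a * τ n x) ∧
      ∀ m n, m ≤ n → ∀ x, τ m (τ n x) = τ m x := by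
  have hstep : ∀ n k j x, x ∈ K (n + k) → taskL_comp r n (k + j) x = taskL_comp r n k x := by
    intro n k j x hx
    induction j with
    | zero => rfl
    | succ j ih =>
      have e : taskL_comp r n (k + (j + 1)) x = taskL_comp r n (k + j) (r (n + (k + j)) x) := rfl
      rw [e, h2 (n + (k + j)) x (hK (by omega) hx), ih]
  have hadd : ∀ n k x y, taskL_comp r n k (x + y) = taskL_comp r n k x + taskL_comp r n k y := by
    intro n k
    induction k with
    | zero => intro x y; rfl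
    | succ k ih =>
      intro x y
      have e : ∀ z, taskL_comp r n (k + 1) z = taskL_comp r n k (r (n + k) z) := fun z => rfl
      rw [e, e, e, h3, ih]
  have hlin : ∀ n k, ∀ a ∈ K n, ∀ x, taskL_comp r n k (a * x) = a * taskL_comp r n k x := by
    intro n k a ha
    induction k with
    | zero => intro x; rfl
    | succ k ih =>
      intro x
      have e : ∀ z, taskL_comp r n (k + 1) z = taskL_comp r n k (r (n + k) z) := fun z => rfl
      rw [e, e, h4 (n + k) a (hK (by omega) ha), ih]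
  have hmem : ∀ n k x, x ∈ K (n + k) → taskL_comp r n k x ∈ K n := by
    intro n k
    induction k with
    | zero => intro x hx; exact hx
    | succ k ih =>
      intro x hx
      exact ih _ (h1 (n + k) x)
  choose N hN using hex
  have hN' : ∀ n x, x ∈ K (n + N x) := fun n x => hK (by omega) (hN x)
  have heq : ∀ n k x, x ∈ K (n + k) → taskL_comp r n (N x) x = taskL_comp r n k x := by
    intro n k x hx
    rcases le_total (N x) k with h | h
    · obtain ⟨j, rfl⟩ := Nat.exists_eq_add_of_le h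
      rw [hstep n (N x) j x (hN' n x)]
    · obtain ⟨j, hj⟩ := Nat.exists_eq_add_of_le h
      rw [hj, hstep n k j x hx]
  refine ⟨fun n x => taskL_comp r n (N x) x, fun n x => hmem n _ x (hN' n x), ?_, ?_, ?_, ?_⟩
  · intro n x hx
    exact heq n 0 x hx
  · intro n x y
    have hx : x ∈ K (n + (N x + N y)) := hK (by omega) (hN x)
    have hy : y ∈ K (n + (N x + N y)) := hK (by omega) (hN y)
    show taskL_comp r n (N (x + y)) (x + y) = taskL_comp r n (N x) x + taskL_comp r n (N y) y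
    rw [heq n _ _ (add_mem hx hy), heq n _ _ hx, heq n _ _ hy, hadd]
  · intro n a ha x
    have hx : x ∈ K (n + N x) := hN' n x
    have ha' : a ∈ K (n + N x) := hK (by omega) ha
    show taskL_comp r n (N (a * x)) (a * x) = a * taskL_comp r n (N x) x
    rw [heq n _ _ (mul_mem ha' hx), hlin n _ a ha]
  · intro m n hmn x
    obtain ⟨j, rfl⟩ := Nat.exists_eq_add_of_le hmn
    have hx : x ∈ K (m + j + N x) := hN' _ x
    show taskL_comp r m (N (taskL_comp r (m + j) (N x) x)) (taskL_comp r (m + j) (N x) x) =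
      taskL_comp r m (N x) x
    rw [heq m j _ (hmem (m + j) (N x) x hx), ← taskL_comp_add,
      ← heq m (j + N x) x (by rw [← Nat.add_assoc]; exact hx)]

private theorem taskL_proj {F : Type} [Field F] (K : Subfield F) :
    ∃ r : F → F, (∀ x, r x ∈ K) ∧ (∀ x ∈ K, r x = x) ∧ (∀ x y, r (x + y) = r x + r y) ∧
      ∀ a ∈ K, ∀ x, r (a * x) = a * r x := by
  obtain ⟨g, hg⟩ := LinearMap.exists_leftInverse_of_injective (Algebra.linearMap K F)
    (LinearMap.ker_eq_bot.mpr (algebraMap K F).injective)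
  refine ⟨fun x => (g x : F), fun x => (g x).2, ?_, ?_, ?_⟩
  · intro x hx
    have := LinearMap.congr_fun hg ⟨x, hx⟩
    have h2 : g x = ⟨x, hx⟩ := this
    show ((g x : K) : F) = x
    rw [h2]
  · intro x y
    show ((g (x + y) : K) : F) = _
    rw [map_add]
    rfl
  · intro a ha x
    have : g (a * x) = (⟨a, ha⟩ : K) * g x := by
      have h := g.map_smul (⟨a, ha⟩ : K) x
      exact h
    show ((g (a * x) : K) : F) = _
    rw [this]
    rfl

/-- There is an increasing sequence of finite subfields exhausting `Fb p`, with compatible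
retractions which are linear over them. -/
theorem exists_retractions (p : ℕ) [Fact p.Prime] :
    ∃ (K : ℕ → Subfield (Fb p)) (τ : ℕ → Fb p → Fb p), Monotone K ∧ (∀ n, Finite (K n)) ∧
      (∀ x, ∃ n, x ∈ K n) ∧ (∀ n x, τ n x ∈ K n) ∧ (∀ n, ∀ x ∈ K n, τ n x = x) ∧
      (∀ n x y, τ n (x + y) = τ n x + τ n y) ∧ (∀ n, ∀ a ∈ K n, ∀ x, τ n (a * x) = a * τ n x) ∧
      ∀ m n, m ≤ n → ∀ x, τ m (τ n x) = τ m x := by
  have hp : p.Prime := Fact.out
  let K : ℕ → Subfield (Fb p) := fun n =>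
    RingHom.eqLocusField (iterateFrobenius (Fb p) p (n.factorial)) (RingHom.id (Fb p))
  have hmemK : ∀ n x, x ∈ K n ↔ x ^ p ^ n.factorial = x := by
    intro n x
    show (x ∈ RingHom.eqLocusField (iterateFrobenius (Fb p) p (n.factorial))
      (RingHom.id (Fb p))) ↔ _
    rw [RingHom.mem_eqLocusField, iterateFrobenius_def]
    rfl
  have hiter : ∀ (x : Fb p) (d : ℕ), x ^ p ^ d = x → ∀ e, x ^ p ^ (d * e) = x := by
    intro x d hx e
    induction e with
    | zero => simp
    | succ e ih => rw [Nat.mul_succ, pow_add, pow_mul, ih, hx]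
  have hdvd : ∀ (x : Fb p) (d e : ℕ), d ∣ e → x ^ p ^ d = x → x ^ p ^ e = x := by
    rintro x d e ⟨c, rfl⟩ hx
    exact hiter x d hx c
  have hKmono : Monotone K := by
    intro m n hmn x hx
    rw [hmemK] at hx ⊢
    exact hdvd x _ _ (Nat.factorial_dvd_factorial hmn) hx
  have hKfin : ∀ n, Finite (K n) := by
    intro n
    have h1 : 1 < p ^ n.factorial := Nat.one_lt_pow (Nat.factorial_pos n).ne' hp.one_lt
    have h2 : (Polynomial.X ^ (p ^ n.factorial) - Polynomial.X : Polynomial (Fb p)) ≠ 0 :=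
      FiniteField.X_pow_card_sub_X_ne_zero _ h1
    have h3 := Polynomial.rootSet_finite
      (Polynomial.X ^ (p ^ n.factorial) - Polynomial.X : Polynomial (Fb p)) (Fb p)
    have h4 : ((K n : Subfield (Fb p)) : Set (Fb p)).Finite := by
      refine h3.subset ?_
      intro x hx
      have hx' : x ∈ K n := hx
      rw [hmemK] at hx'
      rw [Polynomial.mem_rootSet]
      refine ⟨h2, ?_⟩
      simp [hx']
    exact h4.to_subtype
  have hex : ∀ x, ∃ n, x ∈ K n := by
    intro x
    have halg : IsIntegral (ZMod p) x := (Algebra.IsAlgebraic.isAlgebraic x).isIntegral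
    let E := IntermediateField.adjoin (ZMod p) {x}
    have : FiniteDimensional (ZMod p) E := IntermediateField.adjoin.finiteDimensional halg
    have : Finite E := Module.finite_of_finite (ZMod p)
    let _ : Fintype E := Fintype.ofFinite E
    have hcard : Fintype.card E = p ^ Module.finrank (ZMod p) E := by
      rw [Module.card_eq_pow_finrank (K := ZMod p) (V := E), ZMod.card]
    have hpos : 0 < Module.finrank (ZMod p) E := Module.finrank_pos
    refine ⟨Module.finrank (ZMod p) E, ?_⟩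
    rw [hmemK]
    have hxE : x ∈ E := IntermediateField.mem_adjoin_simple_self (ZMod p) x
    have h1 := FiniteField.pow_card (⟨x, hxE⟩ : E)
    rw [hcard] at h1
    have h2 : x ^ p ^ Module.finrank (ZMod p) E = x := by
      have := congrArg (fun z : E => (z : Fb p)) h1
      simpa using this
    exact hdvd x _ _ (Nat.dvd_factorial hpos le_rfl) h2
  choose r hr1 hr2 hr3 hr4 using fun n => taskL_proj (K n)
  obtain ⟨τ, h1, h2, h3, h4, h5⟩ := taskL_retr K hKmono hex r hr1 hr2 hr3 hr4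
  exact ⟨K, τ, hKmono, hKfin, hex, h1, h2, h3, h4, h5⟩

section

variable {F : Type} [Field F] {k : ℕ}

private theorem taskL_uniq {q q' : Perm (Fin k)} {l l' : Fin k → Fˣ} {c c' : Fin k → F}
    (h : ∀ (x : Fin k → F) i, c i + (l i : F) * x (q⁻¹ i) = c' i + (l' i : F) * x (q'⁻¹ i)) :
    q = q' ∧ l = l' ∧ c = c' := by
  classical
  have hc : c = c' := by
    funext i
    have := h 0 i
    simpa using this
  have hql : ∀ i, q'⁻¹ i = q⁻¹ i ∧ l i = l' i := by
    intro i
    have h1 := h (Pi.single (q⁻¹ i) 1) i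
    rw [hc] at h1
    have h2 := add_left_cancel h1
    rw [Pi.single_eq_same, mul_one] at h2
    by_cases he : q'⁻¹ i = q⁻¹ i
    · rw [he, Pi.single_eq_same, mul_one] at h2
      exact ⟨he, Units.ext h2⟩
    · rw [Pi.single_eq_of_ne he, mul_zero] at h2
      exact absurd h2 (l i).ne_zero
  refine ⟨?_, funext fun i => (hql i).2, hc⟩
  have : q'⁻¹ = q⁻¹ := Equiv.ext fun i => (hql i).1
  exact (inv_injective this).symm

private theorem taskL_mul {a b : Perm (Fin k → F)} {q q' : Perm (Fin k)} {l l' : Fin k → Fˣ}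
    {c c' : Fin k → F} (ha : ∀ x i, a x i = c i + (l i : F) * x (q⁻¹ i))
    (hb : ∀ x i, b x i = c' i + (l' i : F) * x (q'⁻¹ i)) :
    ∀ x i, (a * b) x i = (fun i => c i + (l i : F) * c' (q⁻¹ i)) i +
      (((fun i => l i * l' (q⁻¹ i)) i : Fˣ) : F) * x ((q * q')⁻¹ i) := by
  intro x i
  rw [Perm.mul_apply, ha, hb, mul_inv_rev, Perm.mul_apply, Units.val_mul]
  ring

private theorem taskL_inv {a : Perm (Fin k → F)} {q : Perm (Fin k)} {l : Fin k → Fˣ}
    {c : Fin k → F} (ha : ∀ x i, a x i = c i + (l i : F) * x (q⁻¹ i)) :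
    ∀ x i, a⁻¹ x i = (fun i => -(((l (q i))⁻¹ : Fˣ) : F) * c (q i)) i +
      (((fun i => (l (q i))⁻¹) i : Fˣ) : F) * x (q⁻¹⁻¹ i) := by
  intro x i
  obtain ⟨y, rfl⟩ := a.surjective x
  rw [taskL_ia, inv_inv, ha, taskL_ia]
  have h1 : (((l (q i))⁻¹ : Fˣ) : F) * ((l (q i) : Fˣ) : F) = 1 := by
    rw [← Units.val_mul, inv_mul_cancel, Units.val_one]
  show y i = -(((l (q i))⁻¹ : Fˣ) : F) * c (q i) +
    (((l (q i))⁻¹ : Fˣ) : F) * (c (q i) + ((l (q i) : Fˣ) : F) * y i)
  linear_combination (-(y i)) * h1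

/-- Auxiliary: the monomial map as an additive equivalence. -/
private def taskL_mono (q : Perm (Fin k)) (l : Fin k → Fˣ) : (Fin k → F) ≃+ (Fin k → F) where
  toFun x i := (l i : F) * x (q⁻¹ i)
  invFun x i := (((l (q i))⁻¹ : Fˣ) : F) * x (q i)
  left_inv x := by
    funext i
    show (((l (q i))⁻¹ : Fˣ) : F) * ((l (q i) : F) * x (q⁻¹ (q i))) = x i
    rw [← mul_assoc, ← Units.val_mul, inv_mul_cancel, Units.val_one, one_mul,
      taskL_ia q i]
  right_inv x := by
    funext i
    show (l i : F) * ((((l (q (q⁻¹ i)))⁻¹ : Fˣ) : F) * x (q (q⁻¹ i))) = x i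
    rw [taskL_ai q i, ← mul_assoc, ← Units.val_mul, mul_inv_cancel, Units.val_one,
      one_mul]
  map_add' x y := by
    funext i
    show (l i : F) * (x (q⁻¹ i) + y (q⁻¹ i)) = _
    rw [mul_add]
    rfl

private theorem taskL_sol (Q : Subgroup (Perm (Fin k))) (hQ : Group.IsSolvable Q)
    (G : Subgroup (Perm (Fin k → F)))
    (hG : ∀ e ∈ G, ∃ q ∈ Q, ∃ l : Fin k → Fˣ, ∃ c : Fin k → F,
      ∀ x i, e x i = c i + (l i : F) * x (q⁻¹ i)) : Group.IsSolvable G := by
  choose q hq l c h using hG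
  have hmulq : ∀ a b : G, q (a * b).1 (a * b).2 = q a.1 a.2 * q b.1 b.2 ∧
      l (a * b).1 (a * b).2 = (fun i => l a.1 a.2 i * l b.1 b.2 ((q a.1 a.2)⁻¹ i)) ∧
      c (a * b).1 (a * b).2 =
        (fun i => c a.1 a.2 i + (l a.1 a.2 i : F) * c b.1 b.2 ((q a.1 a.2)⁻¹ i)) := by
    intro a b
    apply taskL_uniq
    intro x i
    rw [← h (a * b).1 (a * b).2 x i]
    exact taskL_mul (h a.1 a.2) (h b.1 b.2) x i
  let ψ1 : G →* Q := MonoidHom.mk' (fun e => ⟨q e.1 e.2, hq e.1 e.2⟩)
    (fun a b => Subtype.ext (hmulq a b).1)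
  have hk1 : ∀ a : ψ1.ker, q a.1.1 a.1.2 = 1 := by
    intro a
    have h1 : ψ1 a.1 = 1 := a.2
    exact congrArg Subtype.val h1
  let ψ2 : ψ1.ker →* (Fin k → Fˣ) := MonoidHom.mk' (fun e => l e.1.1 e.1.2) (by
    intro a b
    have h1 := (hmulq a.1 b.1).2.1
    rw [hk1 a] at h1
    exact h1)
  have hk2 : ∀ a : ψ2.ker, l a.1.1.1 a.1.1.2 = 1 := fun a => a.2
  let ψ3 : ψ2.ker →* Multiplicative (Fin k → F) :=
    MonoidHom.mk' (fun e => Multiplicative.ofAdd (c e.1.1.1 e.1.1.2)) (by
      intro a b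
      have h1 := (hmulq a.1.1 b.1.1).2.2
      rw [hk1 a.1, hk2 a] at h1
      show Multiplicative.ofAdd (c (a.1.1 * b.1.1).1 (a.1.1 * b.1.1).2) = _
      rw [h1, ← ofAdd_add]
      congr 1
      funext i
      simp)
  have hinj : Function.Injective ψ3 := by
    intro a b hab
    have h1 : c a.1.1.1 a.1.1.2 = c b.1.1.1 b.1.1.2 := hab
    apply Subtype.ext
    apply Subtype.ext
    apply Subtype.ext
    apply Equiv.ext
    intro x
    funext i
    rw [h a.1.1.1 a.1.1.2 x i, h b.1.1.1 b.1.1.2 x i, h1, hk1 a.1, hk1 b.1, hk2 a, hk2 b]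
  have : Group.IsSolvable ψ2.ker := Group.isSolvable_of_isSolvable_injective hinj
  have : Group.IsSolvable ψ1.ker :=
    Group.isSolvable_of_ker_le_range ψ2.ker.subtype ψ2 (by rw [Subgroup.range_subtype])
  have := hQ
  exact Group.isSolvable_of_ker_le_range ψ1.ker.subtype ψ1 (by rw [Subgroup.range_subtype])

private theorem taskL_fin (K : Subfield F) (hK : Finite K) (G : Subgroup (Perm (Fin k → F)))
    (hG : ∀ e ∈ G, ∃ q : Perm (Fin k), ∃ l : Fin k → Fˣ, ∃ c : Fin k → F,
      (∀ i, (l i : F) ∈ K) ∧ (∀ i, c i ∈ K) ∧ ∀ x i, e x i = c i + (l i : F) * x (q⁻¹ i)) :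
    Finite G := by
  choose q l c hl hc h using hG
  let f : G → Perm (Fin k) × (Fin k → K) × (Fin k → K) := fun e =>
    (q e.1 e.2, fun i => ⟨l e.1 e.2 i, hl e.1 e.2 i⟩, fun i => ⟨c e.1 e.2 i, hc e.1 e.2 i⟩)
  apply Finite.of_injective f
  intro a b hab
  have h1 : q a.1 a.2 = q b.1 b.2 := congrArg Prod.fst hab
  have h2 : ∀ i, (l a.1 a.2 i : F) = l b.1 b.2 i := fun i =>
    congrArg Subtype.val (congrFun (congrArg (fun z => z.2.1) hab) i)
  have h3 : ∀ i, c a.1 a.2 i = c b.1 b.2 i := fun i =>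
    congrArg Subtype.val (congrFun (congrArg (fun z => z.2.2) hab) i)
  apply Subtype.ext
  apply Equiv.ext
  intro x
  funext i
  rw [h a.1 a.2 x i, h b.1 b.2 x i, h1, h2, h3]

private theorem taskL_sup (K : ℕ → Subfield F) (hK : Monotone K) (hex : ∀ x, ∃ n, x ∈ K n)
    (c : Fin k → F) : ∃ n, ∀ i, c i ∈ K n := by
  choose N hN using hex
  refine ⟨Finset.univ.sup fun i => N (c i), fun i => ?_⟩
  exact hK (Finset.le_sup (f := fun i => N (c i)) (Finset.mem_univ i)) (hN (c i))

end

/-- The linear type of monomial maps. -/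
noncomputable def monoType (p : ℕ) [Fact p.Prime] (k : ℕ) (Q : Subgroup (Perm (Fin k)))
    (hQ : Group.IsSolvable Q) : LType where
  V := Fin k → Fb p
  S := MonoSet p k Q
  S_symm := by
    rintro s ⟨q, hq, l, h⟩
    refine ⟨q⁻¹, inv_mem hq, fun i => (l (q i))⁻¹, ?_⟩
    intro x i
    obtain ⟨y, rfl⟩ := s.surjective x
    rw [AddEquiv.symm_apply_apply, h, inv_inv, taskL_ia]
    show y i = (((l (q i))⁻¹ : (Fb p)ˣ) : Fb p) * ((l (q i) : Fb p) * y i)
    rw [← mul_assoc, ← Units.val_mul, inv_mul_cancel, Units.val_one, one_mul]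
  S_trans := by
    rintro s ⟨q, hq, l, h⟩ t ⟨q', hq', l', h'⟩
    refine ⟨q' * q, mul_mem hq' hq, fun i => l' i * l (q'⁻¹ i), ?_⟩
    intro x i
    rw [AddEquiv.trans_apply, h', h, mul_inv_rev, Perm.mul_apply, Units.val_mul, mul_assoc]
  P n := 
    { carrier := {e | ∃ q ∈ Q, ∃ l : Fin k → (Fb p)ˣ, ∃ c : Fin k → Fb p,
        (∀ i, (l i : Fb p) ∈ (exists_retractions p).choose n) ∧
        (∀ i, c i ∈ (exists_retractions p).choose n) ∧
        ∀ x i, e x i = c i + l i * x (q⁻¹ i)}
      mul_mem' := by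
        rintro a b ⟨q, hq, l, c, hl, hc, h⟩ ⟨q', hq', l', c', hl', hc', h'⟩
        refine ⟨q * q', mul_mem hq hq', fun i => l i * l' (q⁻¹ i),
          fun i => c i + (l i : Fb p) * c' (q⁻¹ i), ?_, ?_, taskL_mul h h'⟩
        · intro i
          rw [Units.val_mul]
          exact mul_mem (hl i) (hl' _)
        · intro i
          exact add_mem (hc i) (mul_mem (hl i) (hc' _))
      one_mem' := by
        refine ⟨1, one_mem Q, 1, 0, ?_, ?_, ?_⟩
        · intro i
          simp
        · intro i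
          simp
        · intro x i
          simp
      inv_mem' := by
        rintro a ⟨q, hq, l, c, hl, hc, h⟩
        refine ⟨q⁻¹, inv_mem hq, fun i => (l (q i))⁻¹,
          fun i => -(((l (q i))⁻¹ : (Fb p)ˣ) : Fb p) * c (q i), ?_, ?_, taskL_inv h⟩
        · intro i
          show (((l (q i))⁻¹ : (Fb p)ˣ) : Fb p) ∈ _
          rw [Units.val_inv_eq_inv_val]
          exact inv_mem (hl _)
        · intro i
          show -(((l (q i))⁻¹ : (Fb p)ˣ) : Fb p) * c (q i) ∈ _
          rw [Units.val_inv_eq_inv_val]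
          exact mul_mem (neg_mem (inv_mem (hl _))) (hc _) }
  θ n x i := (exists_retractions p).choose_spec.choose n (x i)
  P_mono := by
    rintro m n hmn e ⟨q, hq, l, c, hl, hc, h⟩
    have hK := (exists_retractions p).choose_spec.choose_spec.1
    exact ⟨q, hq, l, c, fun i => hK hmn (hl i), fun i => hK hmn (hc i), h⟩
  P_fin := by
    intro n
    refine taskL_fin ((exists_retractions p).choose n)
      ((exists_retractions p).choose_spec.choose_spec.2.1 n) _ ?_
    rintro e ⟨q, hq, l, c, hl, hc, h⟩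
    exact ⟨q, l, c, hl, hc, h⟩
  P_sol := by
    intro n
    refine taskL_sol Q hQ _ ?_
    rintro e ⟨q, hq, l, c, hl, hc, h⟩
    exact ⟨q, hq, l, c, h⟩
  P_aff := by
    rintro n e ⟨q, hq, l, c, hl, hc, h⟩
    refine ⟨taskL_mono q l, ⟨q, hq, l, fun x i => rfl⟩, ?_⟩
    intro x y
    funext i
    rw [h (x + y) i, Pi.add_apply, Pi.add_apply, h x i]
    show c i + (l i : Fb p) * (x (q⁻¹ i) + y (q⁻¹ i)) =
      c i + (l i : Fb p) * x (q⁻¹ i) + (l i : Fb p) * y (q⁻¹ i)
    ring
  P_trans := by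
    intro c
    have hh := (exists_retractions p).choose_spec.choose_spec
    obtain ⟨n, hn⟩ := taskL_sup _ hh.1 hh.2.2.1 c
    refine ⟨n, 1, one_mem Q, 1, c, ?_, hn, ?_⟩
    · intro i
      simp
    · intro x i
      simp [add_comm]
  P_lin := by
    rintro s ⟨q, hq, l, h⟩
    have hh := (exists_retractions p).choose_spec.choose_spec
    obtain ⟨n, hn⟩ := taskL_sup _ hh.1 hh.2.2.1 (fun i => (l i : Fb p))
    refine ⟨n, q, hq, l, 0, hn, ?_, ?_⟩
    · intro i
      simp
    · intro x i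
      rw [Pi.zero_apply, zero_add]
      exact h x i
  θ_fin := by
    intro n
    have hh := (exists_retractions p).choose_spec.choose_spec
    have : Finite ((exists_retractions p).choose n) := hh.2.1 n
    have h1 : (((exists_retractions p).choose n : Subfield (Fb p)) : Set (Fb p)).Finite :=
      Set.toFinite _
    refine (Set.Finite.pi' (fun _ : Fin k => h1)).subset ?_
    rintro y ⟨x, rfl⟩ i
    exact hh.2.2.2.1 n (x i)
  θ_equiv := by
    rintro n e ⟨q, hq, l, c, hl, hc, h⟩ x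
    have hh := (exists_retractions p).choose_spec.choose_spec
    funext i
    rw [h, h]
    rw [hh.2.2.2.2.2.1, hh.2.2.2.2.1 n _ (hc i), hh.2.2.2.2.2.2.1 n _ (hl i)]
  θ_comp := by
    intro m n hmn x
    have hh := (exists_retractions p).choose_spec.choose_spec
    funext i
    exact hh.2.2.2.2.2.2.2 m n hmn (x i)

end Pool.Agent.LibUS10
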