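import Pool.Agent.LibUS10.Defs

/-!
TASK R (MP_199925_al): locally finite, locally soluble and locally nilpotent groups.
-/

namespace Pool.Agent.LibUS10

open Equiv

open scoped commutatorElement

private theorem taskR_torsion {G : Type} [Group G] (ht : ∀ g : G, IsOfFinOrder g)
    (K : Subgroup G) (g : K) : IsOfFinOrder g := by
  have h1 : IsOfFinOrder (g : G) := ht _
  rw [isOfFinOrder_iff_pow_eq_one] at h1 ⊢
  obtain ⟨m, hm, h2⟩ := h1
  exact ⟨m, hm, Subtype.ext (by rw [SubmonoidClass.coe_pow, h2]; rfl)⟩

/-- A finitely generated commutative torsion group is finite. -/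
private theorem taskR_finite_of_comm {G : Type} [hG : Group G] [Group.FG G]
    (ht : ∀ g : G, IsOfFinOrder g) (hc : ∀ a b : G, a * b = b * a) : Finite G := by
  let hG' : CommGroup G := { hG with mul_comm := hc }
  exact CommGroup.finite_of_fg_isMulTorsion (G := G) ht

private theorem taskR_finite_aux (n : ℕ) : ∀ (G : Type) [Group G] [Group.FG G],
    (∀ g : G, IsOfFinOrder g) → derivedSeries G n = ⊥ → Finite G := by
  induction n with
  | zero =>
    intro G _ _ _ h
    rw [derivedSeries_zero] at h
    have : Subsingleton G := by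
      rw [← Subgroup.subsingleton_iff]
      exact subsingleton_of_bot_eq_top h.symm
    infer_instance
  | succ n ih =>
    intro G _ _ ht h
    let A := derivedSeries G n
    have hq : Finite (G ⧸ A) := by
      refine ih (G ⧸ A) ?_ ?_
      · intro g
        obtain ⟨g, rfl⟩ := QuotientGroup.mk_surjective g
        exact (QuotientGroup.mk' A).isOfFinOrder (ht g)
      · rw [← map_derivedSeries_eq (QuotientGroup.mk'_surjective A) n]
        exact (QuotientGroup.map_mk'_self A)
    have hfi : A.FiniteIndex := Subgroup.finiteIndex_of_finite_quotient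
    have hA : Finite A := by
      refine taskR_finite_of_comm (taskR_torsion ht A) (fun a b => ?_)
      · have h1 : ⁅(a : G), (b : G)⁆ ∈ derivedSeries G (n + 1) := by
          rw [derivedSeries_succ]
          exact Subgroup.commutator_mem_commutator a.2 b.2
        rw [h, Subgroup.mem_bot, commutatorElement_eq_one_iff_mul_comm] at h1
        exact Subtype.ext h1
    exact Finite.of_equiv _ (Subgroup.groupEquivQuotientProdSubgroup (s := A)).symm

/-- A finitely generated torsion soluble group is finite. -/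
private theorem taskR_finite {G : Type} [Group G] [Group.FG G]
    (ht : ∀ g : G, IsOfFinOrder g) [h : Group.IsSolvable G] : Finite G := by
  obtain ⟨n, hn⟩ := h
  exact taskR_finite_aux n G ht hn

/-- Periodic locally soluble groups are locally finite. -/
theorem locFinite_of_locSolvable {H : Type} [Group H] (ht : ∀ h : H, IsOfFinOrder h)
    (hs : LocSolvable H) : LocFinite H := by
  intro S
  have := hs S
  exact taskR_finite (taskR_torsion ht _)

/-- A periodic group with locally nilpotent derived subgroup is locally soluble. -/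
theorem locSolvable_of_commutator {H : Type} [Group H] (ht : ∀ h : H, IsOfFinOrder h)
    (hn : LocNilpotent (commutator H)) : LocSolvable H := by
  classical
  intro S
  set A := Subgroup.closure (S : Set H) with hA
  have htA : ∀ a : A, IsOfFinOrder a := taskR_torsion ht A
  have hq : Finite (A ⧸ commutator A) := by
    refine taskR_finite_of_comm (fun a => ?_) (fun a b => ?_)
    · obtain ⟨a, rfl⟩ := QuotientGroup.mk_surjective a
      exact (QuotientGroup.mk' (commutator A)).isOfFinOrder (htA a)
    · exact mul_comm (G := Abelianization A) a b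
  have hfi : (commutator A).FiniteIndex := Subgroup.finiteIndex_of_finite_quotient
  have hle : (commutator A).map A.subtype ≤ commutator H := by
    rw [map_commutator_eq]
    exact Subgroup.commutator_mono le_top le_top
  let f : commutator A →* commutator H :=
    (A.subtype.comp (commutator A).subtype).codRestrict (commutator H)
      fun x => hle ⟨x.1, x.2, rfl⟩
  have hf : Function.Injective f := by
    intro x y hxy
    apply Subtype.ext
    apply Subtype.ext
    have h3 := congrArg (fun z : commutator H => (z : H)) hxy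
    exact h3
  have hnil : Group.IsNilpotent (commutator A) := by
    obtain ⟨S', hS'⟩ := (Group.fg_iff_subgroup_fg (commutator A)).1 inferInstance
    have hfg : Group.FG (commutator A) := inferInstance
    obtain ⟨T, hT⟩ := hfg.1
    have h1 := hn (T.image f)
    have h2 : f.range = Subgroup.closure ((T.image f : Finset (commutator H)) :
        Set (commutator H)) := by
      rw [MonoidHom.range_eq_map, ← hT, MonoidHom.map_closure, Finset.coe_image]
    rw [← h2] at h1
    have e : commutator A ≃* f.range := MonoidHom.ofInjective hf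
    exact (Group.isNilpotent_congr e).2 h1
  have hsol : Group.IsSolvable (commutator A) := inferInstance
  have hab : Group.IsSolvable (A ⧸ commutator A) :=
    inferInstanceAs (Group.IsSolvable (Abelianization A))
  refine Group.isSolvable_of_ker_le_range (commutator A).subtype
    (QuotientGroup.mk' (commutator A)) ?_
  rw [QuotientGroup.ker_mk', Subgroup.range_subtype]

/-- The subgroup generated by the conjugates of `x` by the elements of `F`. -/
private def taskR_cl {H : Type} [Group H] (F : Subgroup H) (x : H) : Subgroup H :=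
  Subgroup.closure {y | ∃ f ∈ F, f * x * f⁻¹ = y}

private theorem taskR_cl_mono {H : Type} [Group H] {F F' : Subgroup H} (h : F ≤ F') (x : H) :
    taskR_cl F x ≤ taskR_cl F' x := by
  refine Subgroup.closure_mono ?_
  rintro y ⟨f, hf, rfl⟩
  exact ⟨f, h hf, rfl⟩

private theorem taskR_cl_conj {H : Type} [Group H] {F : Subgroup H} {x : H} {g : H}
    (hg : g ∈ F) {y : H} (hy : y ∈ taskR_cl F x) : g * y * g⁻¹ ∈ taskR_cl F x := by
  unfold taskR_cl at hy ⊢
  induction hy using Subgroup.closure_induction with
  | mem y hy =>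
    obtain ⟨f, hf, rfl⟩ := hy
    refine Subgroup.subset_closure ⟨g * f, mul_mem hg hf, ?_⟩
    group
  | one => simp
  | mul a b _ _ ha hb =>
    have : g * (a * b) * g⁻¹ = (g * a * g⁻¹) * (g * b * g⁻¹) := by group
    rw [this]
    exact mul_mem ha hb
  | inv a _ ha =>
    have : g * a⁻¹ * g⁻¹ = (g * a * g⁻¹)⁻¹ := by group
    rw [this]
    exact inv_mem ha

private theorem taskR_cl_fin {H : Type} [Group H] {x y : H} (hy : y ∈ taskR_cl ⊤ x) :
    ∃ S : Finset H, y ∈ taskR_cl (Subgroup.closure (S : Set H)) x := by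
  classical
  unfold taskR_cl at hy
  induction hy using Subgroup.closure_induction with
  | mem y hy =>
    obtain ⟨f, _, rfl⟩ := hy
    refine ⟨{f}, Subgroup.subset_closure ⟨f, Subgroup.subset_closure ?_, rfl⟩⟩
    simp
  | one => exact ⟨∅, one_mem _⟩
  | mul a b _ _ ha hb =>
    obtain ⟨S, hS⟩ := ha
    obtain ⟨S', hS'⟩ := hb
    refine ⟨S ∪ S', mul_mem (taskR_cl_mono (Subgroup.closure_mono ?_) x hS)
      (taskR_cl_mono (Subgroup.closure_mono ?_) x hS')⟩
    · simp
    · simp
  | inv a _ ha =>
    obtain ⟨S, hS⟩ := ha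
    exact ⟨S, inv_mem hS⟩

private theorem taskR_comm_fin {H : Type} [Group H] (R : Subgroup H) {x y : H}
    (hy : y ∈ ⁅R, taskR_cl ⊤ x⁆) :
    ∃ S : Finset H, y ∈ ⁅R ⊓ Subgroup.closure (S : Set H),
      taskR_cl (Subgroup.closure (S : Set H)) x⁆ := by
  classical
  have hmono : ∀ S S' : Finset H, S ⊆ S' → ⁅R ⊓ Subgroup.closure (S : Set H),
      taskR_cl (Subgroup.closure (S : Set H)) x⁆ ≤ ⁅R ⊓ Subgroup.closure (S' : Set H),
      taskR_cl (Subgroup.closure (S' : Set H)) x⁆ := by
    intro S S' h
    have h1 : Subgroup.closure (S : Set H) ≤ Subgroup.closure (S' : Set H) :=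
      Subgroup.closure_mono (by exact_mod_cast h)
    exact Subgroup.commutator_mono (inf_le_inf_left _ h1) (taskR_cl_mono h1 x)
  rw [Subgroup.commutator_def] at hy
  induction hy using Subgroup.closure_induction with
  | mem y hy =>
    obtain ⟨r, hr, m, hm, rfl⟩ := hy
    obtain ⟨S, hS⟩ := taskR_cl_fin hm
    have h1 : Subgroup.closure (S : Set H) ≤ Subgroup.closure ((insert r S : Finset H) : Set H) :=
      Subgroup.closure_mono (by simp)
    refine ⟨insert r S, Subgroup.commutator_mem_commutator
      (Subgroup.mem_inf.2 ⟨hr, Subgroup.subset_closure ?_⟩) (taskR_cl_mono h1 x hS)⟩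
    simp
  | one => exact ⟨∅, one_mem _⟩
  | mul a b _ _ ha hb =>
    obtain ⟨S, hS⟩ := ha
    obtain ⟨S', hS'⟩ := hb
    exact ⟨S ∪ S', mul_mem (hmono _ _ Finset.subset_union_left hS)
      (hmono _ _ Finset.subset_union_right hS')⟩
  | inv a _ ha =>
    obtain ⟨S, hS⟩ := ha
    exact ⟨S, inv_mem hS⟩

private theorem taskR_comm_sup {H : Type} [Group H] (D C N : Subgroup H) [N.Normal] :
    ⁅D, C ⊔ N⁆ ≤ ⁅D, C⁆ ⊔ N := by
  rw [Subgroup.commutator_le]
  intro d hd z hz
  obtain ⟨c, hc, n, hn, rfl⟩ := Subgroup.mem_sup_of_normal_right.1 hz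
  have h1 : ⁅d, c * n⁆ = ⁅d, c⁆ * (c * ⁅d, n⁆ * c⁻¹) := by
    simp only [commutatorElement_def]
    group
  rw [h1]
  refine mul_mem (Subgroup.mem_sup_left (Subgroup.commutator_mem_commutator hd hc))
    (Subgroup.mem_sup_right ?_)
  refine Subgroup.Normal.conj_mem inferInstance _ ?_ c
  have h2 : ⁅d, n⁆ = (d * n * d⁻¹) * n⁻¹ := by
    simp only [commutatorElement_def]
  rw [h2]
  exact mul_mem (Subgroup.Normal.conj_mem inferInstance _ hn d) (inv_mem hn)

/-- Locally nilpotent normal subgroups of locally finite groups centralise chief factors. -/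
theorem locNil_chief {H : Type} [Group H] (hf : LocFinite H) {M N : Subgroup H}
    (hc : IsChief M N) (R : Subgroup H) [R.Normal] (hR : LocNilpotent R) : ⁅R, M⁆ ≤ N := by
  classical
  by_contra hcon
  have hMn := hc.normal_top
  have hNn := hc.normal_bot
  have hNM : N ≤ M := hc.lt.le
  -- `M = [R, M] N`
  have hM : ⁅R, M⁆ ⊔ N = M := by
    rcases hc.min (⁅R, M⁆ ⊔ N) inferInstance le_sup_right
      (sup_le (Subgroup.commutator_le_right R M) hNM) with h | h
    · exact absurd (h ▸ le_sup_left) hcon
    · exact h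
  obtain ⟨x, hxM, hxN⟩ := SetLike.exists_of_lt hc.lt
  -- the normal closure of `x`
  have hcl : (taskR_cl ⊤ x).Normal := ⟨fun y hy g => taskR_cl_conj (Subgroup.mem_top g) hy⟩
  have hxcl : ∀ F : Subgroup H, x ∈ taskR_cl F x := fun F =>
    Subgroup.subset_closure ⟨1, one_mem _, by simp⟩
  have hclM : taskR_cl ⊤ x ≤ M := by
    unfold taskR_cl
    rw [Subgroup.closure_le]
    rintro y ⟨f, _, rfl⟩
    exact hMn.conj_mem x hxM f
  have hM2 : taskR_cl ⊤ x ⊔ N = M := by
    rcases hc.min (taskR_cl ⊤ x ⊔ N) inferInstance le_sup_right (sup_le hclM hNM) with h | h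
    · exact absurd (h ▸ Subgroup.mem_sup_left (hxcl ⊤)) hxN
    · exact h
  have hx1 : x ∈ ⁅R, taskR_cl ⊤ x⁆ ⊔ N := by
    have h1 : ⁅R, M⁆ ⊔ N ≤ ⁅R, taskR_cl ⊤ x⁆ ⊔ N := by
      refine sup_le ?_ le_sup_right
      conv_lhs => rw [← hM2]
      exact taskR_comm_sup _ _ _
    rw [hM] at h1
    exact h1 hxM
  obtain ⟨y, hy, n, hn, hyn⟩ := Subgroup.mem_sup_of_normal_right.1 hx1
  obtain ⟨S, hS⟩ := taskR_comm_fin R hy
  -- the finite subgroup
  let F := Subgroup.closure ((insert x S : Finset H) : Set H)
  have hSF : Subgroup.closure (S : Set H) ≤ F := Subgroup.closure_mono (by simp)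
  have hxF : x ∈ F := Subgroup.subset_closure (by simp)
  have hFfin : Finite F := hf (insert x S)
  let D := R ⊓ F
  let L := taskR_cl F x
  have hyDL : y ∈ ⁅D, L⁆ :=
    Subgroup.commutator_mono (inf_le_inf_left _ hSF) (taskR_cl_mono hSF x) hS
  have hLF : L ≤ F := by
    change taskR_cl F x ≤ F
    unfold taskR_cl
    rw [Subgroup.closure_le]
    rintro y ⟨f, hf, rfl⟩
    exact mul_mem (mul_mem hf hxF) (inv_mem hf)
  -- `[D, L]` is normalised by `F`
  have hDconj : ∀ f ∈ F, ∀ d ∈ D, f * d * f⁻¹ ∈ D := fun f hf d hd =>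
    Subgroup.mem_inf.2 ⟨Subgroup.Normal.conj_mem inferInstance d hd.1 f,
      F.mul_mem (F.mul_mem hf hd.2) (F.inv_mem hf)⟩
  have hDLconj : ∀ f ∈ F, ∀ z ∈ ⁅D, L⁆, f * z * f⁻¹ ∈ ⁅D, L⁆ := by
    intro f hf z hz
    rw [Subgroup.commutator_def] at hz
    induction hz using Subgroup.closure_induction with
    | mem z hz =>
      obtain ⟨d, hd, l, hl, rfl⟩ := hz
      have h1 : f * ⁅d, l⁆ * f⁻¹ = ⁅f * d * f⁻¹, f * l * f⁻¹⁆ := by
        simp only [commutatorElement_def]
        group
      rw [h1]
      exact Subgroup.commutator_mem_commutator (hDconj f hf d hd) (taskR_cl_conj hf hl)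
    | one => simp
    | mul a b _ _ ha hb =>
      have : f * (a * b) * f⁻¹ = (f * a * f⁻¹) * (f * b * f⁻¹) := by group
      rw [this]
      exact mul_mem ha hb
    | inv a _ ha =>
      have : f * a⁻¹ * f⁻¹ = (f * a * f⁻¹)⁻¹ := by group
      rw [this]
      exact inv_mem ha
  have hL1 : L ≤ ⁅D, L⁆ ⊔ N := by
    change taskR_cl F x ≤ _
    rw [taskR_cl, Subgroup.closure_le]
    rintro z ⟨f, hf, rfl⟩
    have h1 : f * x * f⁻¹ = (f * y * f⁻¹) * (f * n * f⁻¹) := by
      rw [← hyn]
      group
    rw [h1]
    exact mul_mem (Subgroup.mem_sup_left (hDLconj f hf y hyDL))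
      (Subgroup.mem_sup_right (hNn.conj_mem n hn f))
  have hDL : ⁅D, L⁆ ≤ D := by
    rw [Subgroup.commutator_le]
    intro d hd l hl
    have h1 : ⁅d, l⁆ = d * (l * d * l⁻¹)⁻¹ := by
      simp only [commutatorElement_def]
      group
    rw [h1]
    exact mul_mem hd (inv_mem (hDconj l (hLF hl) d hd))
  have hLk : ∀ k, L ≤ D.lowerCentralSeries k ⊔ N := by
    intro k
    induction k with
    | zero =>
      rw [Subgroup.lowerCentralSeries_zero]
      exact hL1.trans (sup_le_sup_right hDL N)
    | succ k ih =>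
      rw [Subgroup.lowerCentralSeries_succ, Subgroup.commutator_comm]
      refine hL1.trans (sup_le ?_ le_sup_right)
      exact (Subgroup.commutator_mono le_rfl ih).trans (taskR_comm_sup _ _ _)
  -- `D` is nilpotent
  have hDfin : Finite D := Finite.of_injective (Subgroup.inclusion (inf_le_right : D ≤ F))
    (Subgroup.inclusion_injective _)
  have hDn : Group.IsNilpotent D := by
    have hDR : D ≤ R := inf_le_left
    have e := Subgroup.subgroupOfEquivOfLe hDR
    have hfin' : Finite (D.subgroupOf R) := Finite.of_equiv D e.symm.toEquiv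
    have hfs : ((D.subgroupOf R : Subgroup R) : Set R).Finite := hfin'
    have h1 := hR hfs.toFinset
    rw [Set.Finite.coe_toFinset, Subgroup.closure_eq] at h1
    exact (Group.isNilpotent_congr e).1 h1
  obtain ⟨k, hk⟩ := (Subgroup.isNilpotent_iff_lowerCentralSeries D).1 hDn
  have h1 := hLk k
  rw [hk, bot_sup_eq] at h1
  exact hxN (h1 (hxcl F))

end Pool.Agent.LibUS10
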