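import Pool.Agent.LibUS10.Defs

/-!
Monomial maps over the algebraic closure of a prime field (MP_199925_al).
-/

namespace Pool.Agent.LibUS10

open Equiv

/-- The algebraic closure of the field with `p` elements. -/
abbrev Fb (p : ℕ) [Fact p.Prime] : Type := AlgebraicClosure (ZMod p)

/-- The monomial maps of `Fb p ^ k` with permutation part in `Q`. -/
def MonoSet (p : ℕ) [Fact p.Prime] (k : ℕ) (Q : Subgroup (Perm (Fin k))) :
    Set ((Fin k → Fb p) ≃+ (Fin k → Fb p)) :=
  {s | ∃ q ∈ Q, ∃ l : Fin k → (Fb p)ˣ, ∀ x i, s x i = l i * x (q⁻¹ i)}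

end Pool.Agent.LibUS10
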