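import Pool.Agent.LibUS10.Single

/-!
Basic facts on admissible permutations and pure actions (MP_199925_al).
-/

namespace Pool.Agent.LibUS10

open Equiv

variable {I : Type} [LinearOrder I] {T : I → LType}

/-- The data showing that `g` is admissible. -/
structure IsFib (J : Finset I) (n : ℕ) (g : Perm (Om T)) (e : ∀ i, Om T → Perm (T i).V) :
    Prop where
  mem : ∀ i ω, e i ω ∈ (T i).P n
  one : ∀ i, i ∉ J → ∀ ω, e i ω = 1
  rel : ∀ i ω ω', Rel T J n i ω ω' → e i ω = e i ω'
  app : ∀ ω i, g ω i = e i ω (ω i)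

theorem Adm.exists_fib {J : Finset I} {n : ℕ} {g : Perm (Om T)} (hg : Adm T J n g) :
    ∃ e, IsFib J n g e := by
  obtain ⟨e, h1, h2, h3, h4⟩ := hg
  exact ⟨e, h1, h2, h3, h4⟩

variable {J : Finset I} {n : ℕ}

theorem IsFib.rel_map {g : Perm (Om T)} {e : ∀ i, Om T → Perm (T i).V} (he : IsFib J n g e)
    {i : I} {ω ω' : Om T} (hr : Rel T J n i ω ω') : Rel T J n i (g ω) (g ω') := by
  intro j hj hij
  rw [he.app, he.app, (T j).θ_equiv n _ (he.mem _ _), (T j).θ_equiv n _ (he.mem _ _),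
    he.rel j ω ω' (fun k hk hjk => hr k hk (hij.trans hjk)), hr j hj hij]

theorem IsFib.fib_apply {g : Perm (Om T)} {e : ∀ i, Om T → Perm (T i).V} (he : IsFib J n g e)
    (i : I) (ω : Om T) (x : (T i).V) : e i ω x = g (Function.update ω i x) i := by
  rw [he.app, he.rel i _ _ (Rel.update le_rfl ω x), Function.update_self]

theorem IsFib.mul {g h k : Perm (Om T)} {e e' e'' : ∀ i, Om T → Perm (T i).V}
    (he : IsFib J n g e) (he' : IsFib J n h e') (he'' : IsFib J n k e'') (hk : k = g * h)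
    (i : I) (ω : Om T) : e'' i ω = e i (h ω) * e' i ω := by
  ext x
  rw [he''.fib_apply, hk, Perm.mul_apply, Perm.mul_apply, he.app, he'.fib_apply,
    he.rel i _ _ (he'.rel_map (Rel.update le_rfl ω x))]

/-- agreement above `i` implies the relation -/
theorem Rel.of_eq {i : I} {ω ω' : Om T} (h : ∀ j, i < j → ω' j = ω j) :
    Rel T J n i ω' ω := fun j _ hij => by rw [h j hij]

theorem IsFib.agree {g : Perm (Om T)} {e : ∀ i, Om T → Perm (T i).V} (he : IsFib J n g e)
    {i : I} {ω ω' : Om T} (h : ∀ j, i < j → ω' j = ω j) : ∀ j, i < j → g ω' j = g ω j := by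
  intro j hj
  rw [he.app, he.app, h j hj, he.rel j ω' ω (Rel.of_eq (fun k hk => h k (hj.trans hk)))]

theorem PureAt.fix {H : Type} [Group H] {F : Filt T H} {α : H →* Perm (Om T)} {j : I}
    (h : PureAt F α j) {a : H} (ha : F.v a < j) (ω : Om T) : α a ω j = ω j := by
  obtain ⟨s, _, hs⟩ := h ω
  rw [hs a ha.le ω (fun _ _ => rfl), (F.ι_zero j a ha.le).2 ha, map_zero, add_zero]

theorem PureAt.fix_above {H : Type} [Group H] {F : Filt T H} {α : H →* Perm (Om T)} {i j : I}
    (h : PureAt F α j) {a : H} (ha : F.v a ≤ i) (hij : i < j) (ω : Om T) : α a ω j = ω j :=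
  h.fix (ha.trans_lt (WithBot.coe_lt_coe.2 hij)) ω

/-- The level of a nontrivial element. -/
theorem Filt.exists_level {H : Type} [Group H] (F : Filt T H) {h : H} (hh : h ≠ 1) :
    ∃ i : I, F.v h = i := by
  cases hv : F.v h with
  | bot => exact absurd ((F.v_bot h).1 hv) hh
  | coe i => exact ⟨i, rfl⟩

/-- An element moves its level. -/
theorem PureAt.fib_eq {H : Type} [Group H] {F : Filt T H} {α : H →* Perm (Om T)} {i : I}
    (h : PureAt F α i) (ω : Om T) : ∃ s ∈ (T i).S, ∀ a : H, F.v a ≤ i →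
      ∀ e, IsFib J n (α a) e → ∀ x, e i ω x = x + s (F.ι i a) := by
  obtain ⟨s, hs, hs'⟩ := h ω
  refine ⟨s, hs, fun a ha e he x => ?_⟩
  rw [he.fib_apply, hs' a ha _ (fun j hj => Function.update_of_ne hj.ne' _ _),
    Function.update_self]

/-- The stabiliser of a class lies in the right term of the filtration. -/
theorem level_le_of_rel {H : Type} [Group H] {F : Filt T H} {α : H →* Perm (Om T)} {j : I}
    (hp : ∀ i, j < i → PureAt F α i) {u : H} {e : ∀ i, Om T → Perm (T i).V}
    (he : IsFib J n (α u) e) {ω : Om T} (hr : Rel T J n j (α u ω) ω) : F.v u ≤ j := by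
  by_contra hcon
  have hu : u ≠ 1 := by
    rintro rfl
    apply hcon
    rw [(F.v_bot 1).2 rfl]
    exact bot_le
  obtain ⟨i, hi⟩ := F.exists_level hu
  rw [hi, not_le, WithBot.coe_lt_coe] at hcon
  obtain ⟨s, hs, hs'⟩ := (hp i hcon).fib_eq (J := J) (n := n) ω
  have h1 := hs' u hi.le e he
  have hne : F.ι i u ≠ 0 := by
    intro h0
    have := (F.ι_zero i u hi.le).1 h0
    rw [hi] at this
    exact lt_irrefl _ this
  have hne' : s (F.ι i u) ≠ 0 := fun h0 => hne (by
    rwa [EmbeddingLike.map_eq_zero_iff] at h0)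
  by_cases hiJ : i ∈ J
  · have h2 := hr i hiJ hcon
    rw [he.app, (T i).θ_equiv n _ (he.mem _ _), h1] at h2
    exact hne' (by simpa using h2)
  · have h2 := h1 0
    rw [he.one i hiJ, Perm.one_apply, zero_add] at h2
    exact hne' h2.symm

/-- Conjugates of pure actions are pure. -/
theorem PureAt.conj {H : Type} [Group H] {F : Filt T H} {α : H →* Perm (Om T)}
    {g : Perm (Om T)} (hg : g ∈ UG T) {i : I} (hab : ∀ j, i < j → PureAt F α j)
    (h : PureAt F α i) : PureAt F ((MulAut.conj g).toMonoidHom.comp α) i := by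
  obtain ⟨J, n, hg1, hg2⟩ := hg
  obtain ⟨e, he⟩ := hg1.exists_fib
  obtain ⟨e', he'⟩ := hg2.exists_fib
  intro ω
  obtain ⟨s, hs, hs'⟩ := h (g⁻¹ ω)
  obtain ⟨t, ht, ht'⟩ := (T i).P_aff n (e i (g⁻¹ ω)) (he.mem _ _)
  refine ⟨s.trans t, (T i).S_trans s hs t ht, fun a ha ω' hω' => ?_⟩
  have h1 : ∀ j, i < j → g⁻¹ ω' j = g⁻¹ ω j := he'.agree hω'
  have h2 := hs' a ha (g⁻¹ ω') h1
  have h3 : ∀ j, i < j → α a (g⁻¹ ω') j = g⁻¹ ω j := by
    intro j hj
    rw [(hab j hj).fix_above ha hj, h1 j hj]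
  have h4 : e i (α a (g⁻¹ ω')) = e i (g⁻¹ ω) := he.rel i _ _ (Rel.of_eq h3)
  have h5 : e i (g⁻¹ ω') = e i (g⁻¹ ω) := he.rel i _ _ (Rel.of_eq h1)
  have h6 : ω' i = e i (g⁻¹ ω) (g⁻¹ ω' i) := by
    rw [← h5, ← he.app, ← Perm.mul_apply, mul_inv_cancel, Perm.one_apply]
  have h7 : ((MulAut.conj g).toMonoidHom.comp α) a ω' i = g (α a (g⁻¹ ω')) i := by
    simp [MulAut.conj_apply, Perm.mul_apply]
  rw [h7, he.app, h4, h2, ht', ← h6]
  rfl

theorem Pure.conj {H : Type} [Group H] {F : Filt T H} {α : H →* Perm (Om T)}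
    {g : Perm (Om T)} (hg : g ∈ UG T) (h : Pure F α) :
    Pure F ((MulAut.conj g).toMonoidHom.comp α) :=
  fun i => (h i).conj hg (fun j _ => h j)

/-- The setoid of `Rel`. -/
def relSetoid (T : I → LType) (J : Finset I) (n : ℕ) (j : I) : Setoid (Om T) where
  r := Rel T J n j
  iseqv := ⟨fun _ _ _ _ => rfl, fun h k hk hjk => (h k hk hjk).symm,
    fun h h' k hk hjk => (h k hk hjk).trans (h' k hk hjk)⟩

instance relSetoid_finite (T : I → LType) (J : Finset I) (n : ℕ) (j : I) :
    Finite (Quotient (relSetoid T J n j)) := by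
  classical
  have hfin : ∀ k : J, Finite (Set.range ((T k).θ n)) := fun k => (T k).θ_fin n
  let f : Quotient (relSetoid T J n j) → ∀ k : J, Option (Set.range ((T k).θ n)) :=
    Quotient.lift (fun ω k => if j < k then some ⟨(T k).θ n (ω k), ⟨_, rfl⟩⟩ else none) (by
      intro ω ω' h
      funext k
      by_cases hk : j < k
      · simp only [hk, if_true]
        congr 2
        exact h k k.2 hk
      · simp only [hk, if_false])
  refine Finite.of_injective f ?_
  intro a b
  induction a using Quotient.inductionOn with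
  | h ω =>
    induction b using Quotient.inductionOn with
    | h ω' =>
      intro h
      apply Quotient.sound
      intro k hk hjk
      have := congrFun h ⟨k, hk⟩
      simp only [f, Quotient.lift_mk, hjk, if_true, Option.some.injEq] at this
      exact congrArg Subtype.val this

end Pool.Agent.LibUS10
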