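import Pool.Agent.LibUS10.PureBase

/-!
TASK P (MP_199925_al): two pure actions of a finite group are conjugate in `UG T`.
-/

namespace Pool.Agent.LibUS10

open Equiv

variable {I : Type} [LinearOrder I] {T : I → LType}

/-- Finitely many elements of `UG` lie in a common `GJ`. -/
theorem exists_GJ {A : Type} [Finite A] (f : A → Perm (Om T)) (hf : ∀ a, f a ∈ UG T) :
    ∃ J n, ∀ a, f a ∈ GJ T J n := by
  classical
  cases nonempty_fintype A
  choose J n h using hf
  refine ⟨Finset.univ.biUnion J, Finset.univ.sup n, fun a => GJ_mono T ?_ ?_ (h a)⟩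
  · exact Finset.subset_biUnion_of_mem J (Finset.mem_univ a)
  · exact Finset.le_sup (f := n) (Finset.mem_univ a)

/-- The inductive step of `exists_conj`. -/
theorem conj_step {A : Type} [Group A] [Finite A] (F : Filt T A) {α β : A →* Perm (Om T)}
    {J : Finset I} {n : ℕ} (hα : ∀ a, α a ∈ GJ T J n) (hβ : ∀ a, β a ∈ GJ T J n)
    (pα : Pure F α) (pβ : Pure F β) {j : I} (hj : j ∈ J)
    (hag : ∀ a ω i, i ∈ J → j < i → α a ω i = β a ω i) :
    ∃ N, ∃ σ ∈ GJ T J N, (∀ ω i, i ≠ j → σ ω i = ω i) ∧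
      ∀ a ω, σ (α a ω) j = β a (σ ω) j := by
  classical
  choose eα hea using fun a => (hα a).1.exists_fib
  choose eβ heb using fun a => (hβ a).1.exists_fib
  let Y := Quotient (relSetoid T J n j)
  let q : Om T → Y := fun ω => Quotient.mk (relSetoid T J n j) ω
  have hq : ∀ ω ω', q ω = q ω' ↔ Rel T J n j ω ω' := fun ω ω' =>
    ⟨fun h => Quotient.exact h, fun h => Quotient.sound h⟩
  have hqab : ∀ a ω, q (α a ω) = q (β a ω) := fun a ω => (hq _ _).2 (fun k hk hjk => by
    rw [hag a ω k hk hjk])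
  let act : MulAction A Y :=
    { smul := fun a y => Quotient.map' (s₁ := relSetoid T J n j) (s₂ := relSetoid T J n j)
        (fun ω => β a ω) (fun ω ω' h => (heb a).rel_map h) y
      one_smul := by
        intro y
        induction y using Quotient.inductionOn with
        | h ω =>
          change q (β 1 ω) = q ω
          rw [map_one, Perm.one_apply]
      mul_smul := by
        intro a b y
        induction y using Quotient.inductionOn with
        | h ω =>
          change q (β (a * b) ω) = q (β a (β b ω))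
          rw [map_mul, Perm.mul_apply] }
  have hsmul : ∀ (a : A) (ω : Om T), a • q ω = q (β a ω) := fun a ω => rfl
  -- base points of the orbits
  let base : Y → Y := fun y => (Quotient.mk (MulAction.orbitRel A Y) y).out
  have hbase : ∀ (b : A) (y : Y), base (b • y) = base y := by
    intro b y
    have : (Quotient.mk (MulAction.orbitRel A Y) (b • y)) =
        Quotient.mk (MulAction.orbitRel A Y) y := Quotient.sound ⟨b, rfl⟩
    simp only [base, this]
  have helt : ∀ y : Y, ∃ c : A, c • base y = y := by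
    intro y
    have h1 : (MulAction.orbitRel A Y) (base y) y := Quotient.mk_out (s := MulAction.orbitRel A Y) y
    obtain ⟨c, hc⟩ := (MulAction.orbitRel A Y).symm h1
    exact ⟨c, hc⟩
  choose elt helt using helt
  let bp : Y → Om T := fun y => y.out
  have hbp : ∀ y, q (bp y) = y := fun y => Quotient.out_eq y
  have hsa := fun y : Y => (pα j).fib_eq (J := J) (n := n) (bp y)
  have hsb := fun y : Y => (pβ j).fib_eq (J := J) (n := n) (bp y)
  choose sα hsα hsα' using hsa
  choose sβ hsβ hsβ' using hsb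
  let t : Y → (T j).V ≃+ (T j).V := fun y => (sα y).symm.trans (sβ y)
  have ht : ∀ y, t y ∈ (T j).S := fun y =>
    (T j).S_trans _ ((T j).S_symm _ (hsα y)) _ (hsβ y)
  choose m hm using fun y => (T j).P_lin (t y) (ht y)
  have : Finite Y := relSetoid_finite T J n j
  cases nonempty_fintype Y
  let N := max n (Finset.univ.sup m)
  have hnN : n ≤ N := le_max_left _ _
  have hmN : ∀ y, m y ≤ N := fun y => (Finset.le_sup (f := m) (Finset.mem_univ y)).trans
    (le_max_right _ _)
  let h : Y → Perm (T j).V := fun y =>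
    eβ (elt y) j (bp (base y)) * (t (base y)).toEquiv * (eα (elt y) j (bp (base y)))⁻¹
  have hh : ∀ y, h y ∈ (T j).P N := fun y =>
    mul_mem (mul_mem ((T j).P_mono hnN ((heb _).mem _ _)) ((T j).P_mono (hmN _) (hm _)))
      (inv_mem ((T j).P_mono hnN ((hea _).mem _ _)))
  let f : Om T → Perm (T j).V := fun ω => h (q ω)
  have hf : ∀ ω ω', Rel T J N j ω ω' → f ω = f ω' := fun ω ω' hr => by
    simp only [f]
    rw [(hq ω ω').2 (Rel.mono T (Finset.Subset.refl J) hnN hr)]
  refine ⟨N, single j f (fun ω x => hf _ _ (Rel.update le_rfl ω x)),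
    single_mem hj f (fun ω => hh _) hf, fun ω i hi => ?_, fun b ω => ?_⟩
  · rw [single_apply, Function.update_of_ne hi]
  · -- the cocycle computation
    have key : f (β b ω) * eα b j ω = eβ b j ω * f ω := by
      have hy' : q (β b ω) = b • q ω := (hsmul b ω).symm
      simp only [f, h]
      rw [hy', hbase b (q ω)]
      obtain ⟨y0, hy0⟩ : ∃ y0, y0 = base (q ω) := ⟨_, rfl⟩
      obtain ⟨c, hc⟩ : ∃ c, c = elt (q ω) := ⟨_, rfl⟩
      obtain ⟨c', hc'⟩ : ∃ c', c' = elt (b • q ω) := ⟨_, rfl⟩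
      obtain ⟨ω0, hω0⟩ : ∃ ω0, ω0 = bp y0 := ⟨_, rfl⟩
      have e1 : c • y0 = q ω := by rw [hc, hy0]; exact helt _
      have e2 : c' • y0 = b • q ω := by rw [hc', hy0, ← hbase b (q ω)]; exact helt _
      have e3 : q ω0 = y0 := by rw [hω0]; exact hbp y0
      rw [← hy0, ← hc, ← hc', ← hω0]
      obtain ⟨u, hu⟩ : ∃ u, u = c'⁻¹ * b * c := ⟨_, rfl⟩
      have e4 : u • y0 = y0 := by
        rw [hu, mul_smul, mul_smul, e1, ← e2, inv_smul_smul]
      have e5 : b * c = c' * u := by rw [hu]; group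
      have hlev : F.v u ≤ j := by
        refine level_le_of_rel (fun i _ => pβ i) (heb u) (ω := ω0) ?_
        rw [← hq, ← hsmul, e3, e4]
      -- β side
      have b1 : eβ (b * c) j ω0 = eβ b j ω * eβ c j ω0 := by
        rw [(heb b).mul (heb c) (heb (b * c)) (map_mul β b c) j ω0,
          (heb b).rel j (β c ω0) ω ((hq _ _).1 (by rw [← hsmul, e3, e1]))]
      have b2 : eβ (c' * u) j ω0 = eβ c' j ω0 * eβ u j ω0 := by
        rw [(heb c').mul (heb u) (heb (c' * u)) (map_mul β c' u) j ω0,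
          (heb c').rel j (β u ω0) ω0 ((hq _ _).1 (by rw [← hsmul, e3, e4]))]
      -- α side
      have a1 : eα (b * c) j ω0 = eα b j ω * eα c j ω0 := by
        rw [(hea b).mul (hea c) (hea (b * c)) (map_mul α b c) j ω0,
          (hea b).rel j (α c ω0) ω ((hq _ _).1 (by rw [hqab, ← hsmul, e3, e1]))]
      have a2 : eα (c' * u) j ω0 = eα c' j ω0 * eα u j ω0 := by
        rw [(hea c').mul (hea u) (hea (c' * u)) (map_mul α c' u) j ω0,
          (hea c').rel j (α u ω0) ω0 ((hq _ _).1 (by rw [hqab, ← hsmul, e3, e4]))]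
      have h3 : (t y0).toEquiv * eα u j ω0 = eβ u j ω0 * (t y0).toEquiv := by
        ext x
        rw [Perm.mul_apply, Perm.mul_apply]
        have ha := hsα' y0 u hlev (eα u) (hea u)
        have hb := hsβ' y0 u hlev (eβ u) (heb u)
        rw [← hω0] at ha hb
        rw [ha x, hb]
        change t y0 (x + sα y0 (F.ι j u)) = t y0 x + sβ y0 (F.ι j u)
        rw [map_add]
        simp only [t, AddEquiv.trans_apply, AddEquiv.symm_apply_apply]
      have a3 : eα b j ω = eα c' j ω0 * eα u j ω0 * (eα c j ω0)⁻¹ := by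
        rw [← a2, ← e5, a1]; group
      have b3 : eβ b j ω = eβ c' j ω0 * eβ u j ω0 * (eβ c j ω0)⁻¹ := by
        rw [← b2, ← e5, b1]; group
      rw [a3, b3]
      calc eβ c' j ω0 * (t y0).toEquiv * (eα c' j ω0)⁻¹ *
            (eα c' j ω0 * eα u j ω0 * (eα c j ω0)⁻¹)
          = eβ c' j ω0 * ((t y0).toEquiv * eα u j ω0) * (eα c j ω0)⁻¹ := by group
        _ = eβ c' j ω0 * (eβ u j ω0 * (t y0).toEquiv) * (eα c j ω0)⁻¹ := by rw [h3]
        _ = _ := by group
    rw [single_apply, Function.update_self, (heb b).app, (hea b).app,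
      (heb b).rel j _ ω (by
        rw [single_apply]
        exact Rel.update le_rfl ω _)]
    have h1 : f (α b ω) = f (β b ω) := by
      simp only [f]
      rw [hqab]
    rw [h1, single_apply, Function.update_self, ← Perm.mul_apply, key, Perm.mul_apply]

theorem exists_conj {A : Type} [Group A] [Finite A] (F : Filt T A) {α β : A →* Perm (Om T)}
    (hα : ∀ a, α a ∈ UG T) (hβ : ∀ a, β a ∈ UG T) (pα : Pure F α) (pβ : Pure F β) :
    ∃ g ∈ UG T, ∀ a, g * α a * g⁻¹ = β a := by
  classical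
  obtain ⟨J₁, n₁, h₁⟩ := exists_GJ α hα
  obtain ⟨J₂, n₂, h₂⟩ := exists_GJ β hβ
  obtain ⟨J, hJ⟩ : ∃ J, J = J₁ ∪ J₂ := ⟨_, rfl⟩
  obtain ⟨n, hn⟩ : ∃ n, n = max n₁ n₂ := ⟨_, rfl⟩
  have gα : ∀ a, α a ∈ GJ T J n := fun a => GJ_mono T (by rw [hJ]; exact Finset.subset_union_left)
    (by rw [hn]; exact le_max_left _ _) (h₁ a)
  have gβ : ∀ a, β a ∈ GJ T J n := fun a => GJ_mono T (by rw [hJ]; exact Finset.subset_union_right)
    (by rw [hn]; exact le_max_right _ _) (h₂ a)
  have main : ∀ s : Finset I, s ⊆ J → (∀ i ∈ s, ∀ k ∈ J, i < k → k ∈ s) →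
      ∃ N, n ≤ N ∧ ∃ g ∈ GJ T J N, ∀ a ω, ∀ i ∈ s, (g * α a * g⁻¹) ω i = β a ω i := by
    intro s
    refine Finset.induction_on_min s ?_ ?_
    · exact fun _ _ => ⟨n, le_rfl, 1, one_mem _, fun _ _ i hi => absurd hi (by simp)⟩
    · intro j s hlt ih hs hup
      obtain ⟨N, hN, g, hg, hag⟩ := ih (fun i hi => hs (Finset.mem_insert_of_mem hi))
        (fun i hi k hk hik => (Finset.mem_insert.1 (hup i (Finset.mem_insert_of_mem hi) k hk
          hik)).resolve_left (by
            rintro rfl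
            exact lt_asymm hik (hlt i hi)))
      have hgU : g ∈ UG T := ⟨J, N, hg⟩
      have p1 := pα.conj hgU
      obtain ⟨N', σ, hσ, hσ1, hσ2⟩ := conj_step F (α := (MulAut.conj g).toMonoidHom.comp α)
        (β := β) (J := J) (n := N) (fun a => by
          change g * α a * g⁻¹ ∈ _
          exact mul_mem (mul_mem hg (GJ_mono T (Finset.Subset.refl _) hN (gα a))) (inv_mem hg))
        (fun a => GJ_mono T (Finset.Subset.refl _) hN (gβ a)) p1 pβ
        (j := j) (hs (Finset.mem_insert_self _ _)) (fun a ω i hi hji => by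
          have h3 : i ∈ s := (Finset.mem_insert.1 (hup j (Finset.mem_insert_self _ _) i hi
            hji)).resolve_left hji.ne'
          exact hag a ω i h3)
      refine ⟨max N N', le_max_of_le_left hN, σ * g,
        mul_mem (GJ_mono T (Finset.Subset.refl _) (le_max_right _ _) hσ)
          (GJ_mono T (Finset.Subset.refl _) (le_max_left _ _) hg), fun a ω i hi => ?_⟩
      obtain ⟨ω₁, rfl⟩ : ∃ ω₁, ω = σ ω₁ := ⟨σ⁻¹ ω, by
        rw [← Perm.mul_apply, mul_inv_cancel, Perm.one_apply]⟩
      have h4 : (σ * g * α a * (σ * g)⁻¹) (σ ω₁) = σ ((g * α a * g⁻¹) ω₁) := by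
        have : σ * g * α a * (σ * g)⁻¹ * σ = σ * (g * α a * g⁻¹) := by group
        rw [← Perm.mul_apply, this, Perm.mul_apply]
      rw [h4]
      rcases Finset.mem_insert.1 hi with rfl | hi'
      · exact hσ2 a ω₁
      · have hji : j < i := hlt i hi'
        rw [hσ1 _ i hji.ne', hag a ω₁ i hi']
        obtain ⟨e, he⟩ := (gβ a).1.exists_fib
        rw [he.app, he.app, hσ1 ω₁ i hji.ne', he.rel i (σ ω₁) ω₁ (Rel.of_eq (fun k hk =>
          hσ1 ω₁ k (hji.trans hk).ne'))]
  obtain ⟨N, hN, g, hg, hag⟩ := main J (Finset.Subset.refl _) (fun _ _ k hk _ => hk)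
  refine ⟨g, ⟨J, N, hg⟩, fun a => ?_⟩
  ext ω i
  by_cases hi : i ∈ J
  · exact hag a ω i hi
  · have h1 : g * α a * g⁻¹ ∈ GJ T J N :=
      mul_mem (mul_mem hg (GJ_mono T (Finset.Subset.refl _) hN (gα a))) (inv_mem hg)
    obtain ⟨e, he⟩ := h1.1.exists_fib
    obtain ⟨e', he'⟩ := (gβ a).1.exists_fib
    rw [he.app, he'.app, he.one i hi, he'.one i hi]

end Pool.Agent.LibUS10
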