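import Pool.Agent.LibUS10.Defs

/-!
Permutations acting on one level only, for MP_199925_al.
-/

namespace Pool.Agent.LibUS10

open Equiv

variable {I : Type} [LinearOrder I] {T : I → LType}

theorem Rel.update {J : Finset I} {n : ℕ} {i j : I} (hij : i ≤ j) (ω : Om T) (x : (T i).V) :
    Rel T J n j (Function.update ω i x) ω := by
  intro k _ hjk
  rw [Function.update_of_ne (hij.trans_lt hjk).ne']

/-- The permutation acting at level `j` by `f`. -/
noncomputable def single (j : I) (f : Om T → Perm (T j).V)
    (hf : ∀ ω x, f (Function.update ω j x) = f ω) : Perm (Om T) where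
  toFun ω := Function.update ω j (f ω (ω j))
  invFun ω := Function.update ω j ((f ω)⁻¹ (ω j))
  left_inv ω := by
    simp only [hf, Function.update_self, Function.update_idem, Perm.inv_def,
      Equiv.symm_apply_apply, Function.update_eq_self]
  right_inv ω := by
    simp only [hf, Function.update_self, Function.update_idem, Perm.inv_def,
      Equiv.apply_symm_apply, Function.update_eq_self]

theorem single_apply (j : I) (f : Om T → Perm (T j).V)
    (hf : ∀ ω x, f (Function.update ω j x) = f ω) (ω : Om T) :
    single j f hf ω = Function.update ω j (f ω (ω j)) := rfl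

theorem single_inv_apply (j : I) (f : Om T → Perm (T j).V)
    (hf : ∀ ω x, f (Function.update ω j x) = f ω) (ω : Om T) :
    (single j f hf)⁻¹ ω = Function.update ω j ((f ω)⁻¹ (ω j)) := rfl

theorem single_mem {J : Finset I} {n : ℕ} {j : I} (hj : j ∈ J) (f : Om T → Perm (T j).V)
    (hP : ∀ ω, f ω ∈ (T j).P n) (hr : ∀ ω ω', Rel T J n j ω ω' → f ω = f ω') :
    single j f (fun ω x => hr _ _ (Rel.update le_rfl ω x)) ∈ GJ T J n := by
  classical
  have key : ∀ f : Om T → Perm (T j).V, (∀ ω, f ω ∈ (T j).P n) →
      (∀ ω ω', Rel T J n j ω ω' → f ω = f ω') →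
      ∃ e : ∀ i, Om T → Perm (T i).V,
        (∀ i ω, e i ω ∈ (T i).P n) ∧ (∀ i, i ∉ J → ∀ ω, e i ω = 1) ∧
        (∀ i ω ω', Rel T J n i ω ω' → e i ω = e i ω') ∧
        ∀ ω i, Function.update ω j (f ω (ω j)) i = e i ω (ω i) := by
    intro f hP hr
    refine ⟨fun i ω => if h : i = j then (h ▸ f ω) else 1, fun i ω => ?_, fun i hi ω => ?_,
      fun i ω ω' h => ?_, fun ω i => ?_⟩
    · by_cases h : i = j
      · subst h
        simpa using hP ω
      · simp only [h, dite_false]
        exact one_mem _
    · have h : i ≠ j := by
        rintro rfl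
        exact hi hj
      simp only [h, dite_false]
    · by_cases h' : i = j
      · subst h'
        simp only [dite_true]
        rw [hr _ _ h]
      · simp only [h', dite_false]
    · by_cases h : i = j
      · subst h
        simp
      · simp only [h, dite_false, Perm.one_apply]
        rw [Function.update_of_ne h]
  refine ⟨key f hP hr, ?_⟩
  exact key (fun ω => (f ω)⁻¹) (fun ω => inv_mem (hP ω)) (fun ω ω' h => by rw [hr _ _ h])

end Pool.Agent.LibUS10
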