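import Pool.Agent.LibUS10.Defs

/-!
TASK W (MP_199925_al): the groups `GJ` are finite and soluble; the group `UG` is countable,
periodic and locally soluble.
-/

namespace Pool.Agent.LibUS10

open Equiv

variable {I : Type} [LinearOrder I] (T : I → LType)

/-- The part of a point which is seen by the levels in `J` and the retractions `θ n`. -/
private def taskW_code (J : Finset I) (n : ℕ) (w : Om T) :
    ∀ j : J, Set.range ((T j.1).θ n) := fun j => ⟨(T j.1).θ n (w j.1), w j.1, rfl⟩

private theorem taskW_rel {J : Finset I} {n : ℕ} {w w' : Om T}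
    (h : taskW_code T J n w = taskW_code T J n w') (i : I) : Rel T J n i w w' := by
  intro j hj _
  have h1 := congrFun h ⟨j, hj⟩
  exact congrArg Subtype.val h1

theorem GJ_finite (J : Finset I) (n : ℕ) : Finite (GJ T J n) := by
  classical
  have hr : ∀ j : J, Finite (Set.range ((T j.1).θ n)) := fun j => (T j.1).θ_fin n
  have hp : ∀ j : J, Finite ((T j.1).P n) := fun j => (T j.1).P_fin n
  choose e he1 he2 he3 he4 using fun g : GJ T J n => g.2.1
  let F : GJ T J n → ∀ j : J, (∀ j : J, Set.range ((T j.1).θ n)) → (T j.1).P n :=
    fun g j c => if h : ∃ w, taskW_code T J n w = c then ⟨e g j.1 h.choose, he1 g _ _⟩ else 1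
  refine Finite.of_injective F fun g g' hgg => ?_
  apply Subtype.ext
  apply Equiv.ext
  intro w
  funext i
  rw [he4, he4]
  by_cases hi : i ∈ J
  · have h1 := congrFun (congrFun hgg ⟨i, hi⟩) (taskW_code T J n w)
    have hex : ∃ w', taskW_code T J n w' = taskW_code T J n w := ⟨w, rfl⟩
    have h2 : ∀ g : GJ T J n, F g ⟨i, hi⟩ (taskW_code T J n w) =
        ⟨e g i hex.choose, he1 g _ _⟩ := fun g => dif_pos hex
    rw [h2, h2] at h1
    have h3 := congrArg Subtype.val h1
    have h4 := taskW_rel T hex.choose_spec i
    change e g i hex.choose = e g' i hex.choose at h3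
    rw [he3 g i _ _ h4, he3 g' i _ _ h4] at h3
    rw [h3]
  · rw [he2 g i hi, he2 g' i hi]

/-- Forget the level `a`. -/
private def taskW_drop [DecidableEq I] (a : I) (g : Perm (Om T)) (w : Om T) : Om T :=
  Function.update (g w) a (w a)

private theorem taskW_indep [DecidableEq I] {J : Finset I} {n : ℕ} {a : I}
    (ha : ∀ x ∈ J, a < x) {g : Perm (Om T)} (hg : Adm T (insert a J) n g) {w w' : Om T}
    (h : ∀ j, j ≠ a → w j = w' j) {i : I} (hi : i ≠ a) : g w i = g w' i := by
  obtain ⟨e, he1, he2, he3, he4⟩ := hg
  rw [he4, he4, h i hi]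
  by_cases hiJ : i ∈ J
  · rw [he3 i w w']
    intro j _ hij
    rw [h j (ne_of_gt ((ha i hiJ).trans hij))]
  · have h1 : i ∉ insert a J := by
      rw [Finset.mem_insert]
      push Not
      exact ⟨hi, hiJ⟩
    rw [he2 i h1, he2 i h1]

private theorem taskW_drop_mul [DecidableEq I] {J : Finset I} {n : ℕ} {a : I}
    (ha : ∀ x ∈ J, a < x) {g h : Perm (Om T)} (hg : Adm T (insert a J) n g) (w : Om T) :
    taskW_drop T a g (taskW_drop T a h w) = taskW_drop T a (g * h) w := by
  funext i
  unfold taskW_drop
  by_cases hi : i = a
  · subst hi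
    simp
  · rw [Function.update_of_ne hi, Function.update_of_ne hi, Perm.mul_apply]
    refine taskW_indep T ha hg (fun j hj => ?_) hi
    rw [Function.update_of_ne hj]

private def taskW_hom [DecidableEq I] {J : Finset I} {n : ℕ} {a : I}
    (ha : ∀ x ∈ J, a < x) : GJ T (insert a J) n →* Perm (Om T) :=
  MonoidHom.toHomPerm
    { toFun := fun g => taskW_drop T a g.1
      map_one' := by
        funext w
        exact Function.update_eq_self a w
      map_mul' := by
        intro g h
        funext w
        exact (taskW_drop_mul T ha g.2.1 w).symm }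

private theorem taskW_hom_apply [DecidableEq I] {J : Finset I} {n : ℕ} {a : I}
    (ha : ∀ x ∈ J, a < x) (g : GJ T (insert a J) n) (w : Om T) :
    taskW_hom T ha g w = taskW_drop T a g.1 w := rfl

private theorem taskW_hom_adm [DecidableEq I] {J : Finset I} {n : ℕ} {a : I}
    (ha : ∀ x ∈ J, a < x) (g : GJ T (insert a J) n) : Adm T J n (taskW_hom T ha g) := by
  obtain ⟨e, he1, he2, he3, he4⟩ := g.2.1
  refine ⟨fun i w => if i = a then 1 else e i w, fun i w => ?_, fun i hi w => ?_,
    fun i w w' hr => ?_, fun w i => ?_⟩
  · by_cases h : i = a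
    · simp only [h, if_true]
      exact one_mem _
    · simp only [h, if_false]
      exact he1 i w
  · by_cases h : i = a
    · simp only [h, if_true]
    · simp only [h, if_false]
      refine he2 i ?_ w
      rw [Finset.mem_insert]
      push Not
      exact ⟨h, hi⟩
  · by_cases h : i = a
    · simp only [h, if_true]
    · simp only [h, if_false]
      by_cases hiJ : i ∈ J
      · refine he3 i w w' fun j hj hij => ?_
        rcases Finset.mem_insert.1 hj with rfl | hj
        · exact absurd ((ha i hiJ).trans hij) (lt_irrefl _)
        · exact hr j hj hij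
      · have h1 : i ∉ insert a J := by
          rw [Finset.mem_insert]
          push Not
          exact ⟨h, hiJ⟩
        rw [he2 i h1, he2 i h1]
  · rw [taskW_hom_apply]
    unfold taskW_drop
    by_cases h : i = a
    · subst h
      simp
    · rw [Function.update_of_ne h]
      simp only [h, if_false]
      exact he4 w i

private theorem taskW_pi_solvable {X : Type*} {G : Type*} [Group G] [h : Group.IsSolvable G] :
    Group.IsSolvable (X → G) := by
  obtain ⟨n, hn⟩ := h
  refine ⟨⟨n, ?_⟩⟩
  rw [eq_bot_iff]
  intro f hf
  rw [Subgroup.mem_bot]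
  funext x
  have h1 : (Pi.evalMonoidHom (fun _ : X => G) x) f ∈ derivedSeries G n :=
    map_derivedSeries_le_derivedSeries (Pi.evalMonoidHom (fun _ : X => G) x) n
      ⟨f, hf, rfl⟩
  rw [hn, Subgroup.mem_bot] at h1
  exact h1

private theorem taskW_ker_solvable [DecidableEq I] {J : Finset I} {n : ℕ} {a : I}
    (ha : ∀ x ∈ J, a < x) : Group.IsSolvable (taskW_hom T ha (n := n)).ker := by
  have hsol : Group.IsSolvable ((T a).P n) := (T a).P_sol n
  have hpi : Group.IsSolvable (Om T → (T a).P n) := taskW_pi_solvable
  choose e he1 he2 he3 he4 using fun g : GJ T (insert a J) n => g.2.1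
  -- elements of the kernel act on level `a` only
  have hker : ∀ g : GJ T (insert a J) n, g ∈ (taskW_hom T ha (n := n)).ker →
      ∀ w i, i ≠ a → g.1 w i = w i := by
    intro g hg w i hi
    rw [MonoidHom.mem_ker] at hg
    have h1 : taskW_hom T ha g w i = w i := by
      rw [hg]
      rfl
    rw [taskW_hom_apply] at h1
    unfold taskW_drop at h1
    rwa [Function.update_of_ne hi] at h1
  have hupd : ∀ (g : GJ T (insert a J) n) (w : Om T) (x : (T a).V),
      e g a (Function.update w a x) = e g a w := by
    intro g w x
    refine he3 g a _ _ fun j _ haj => ?_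
    rw [Function.update_of_ne (ne_of_gt haj)]
  have hval : ∀ (g : GJ T (insert a J) n) (w : Om T) (x : (T a).V),
      e g a w x = g.1 (Function.update w a x) a := by
    intro g w x
    rw [he4, hupd, Function.update_self]
  let f : (taskW_hom T ha (n := n)).ker →* (Om T → (T a).P n) :=
    { toFun := fun g w => ⟨e g.1 a w, he1 _ _ _⟩
      map_one' := by
        funext w
        apply Subtype.ext
        apply Equiv.ext
        intro x
        change e 1 a w x = x
        rw [hval]
        change Function.update w a x a = x
        rw [Function.update_self]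
      map_mul' := by
        intro g h
        funext w
        apply Subtype.ext
        apply Equiv.ext
        intro x
        change e (g.1 * h.1) a w x = e g.1 a w (e h.1 a w x)
        rw [hval, hval g.1]
        change g.1.1 (h.1.1 (Function.update w a x)) a = _
        have h5 : h.1.1 (Function.update w a x) = Function.update w a (e h.1 a w x) := by
          funext i
          by_cases hi : i = a
          · subst hi
            rw [Function.update_self, hval]
          · rw [hker h.1 h.2 _ i hi, Function.update_of_ne hi, Function.update_of_ne hi]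
        rw [h5] }
  refine Group.isSolvable_of_isSolvable_injective (f := f) ?_
  rw [injective_iff_map_eq_one]
  intro g hg
  apply Subtype.ext
  apply Subtype.ext
  apply Equiv.ext
  intro w
  funext i
  by_cases hi : i = a
  · subst hi
    have h1 := congrArg Subtype.val (congrFun hg w)
    change e g.1 i w = 1 at h1
    rw [he4, h1]
    rfl
  · rw [hker g.1 g.2 w i hi]
    rfl

theorem GJ_solvable (J : Finset I) (n : ℕ) : Group.IsSolvable (GJ T J n) := by
  classical
  induction J using Finset.induction_on_min with
  | empty =>
    have hs : Subsingleton (GJ T ∅ n) := by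
      refine ⟨fun g g' => ?_⟩
      have h : ∀ g : GJ T ∅ n, g = 1 := by
        intro g
        obtain ⟨e, _, he2, _, he4⟩ := g.2.1
        apply Subtype.ext
        apply Equiv.ext
        intro w
        funext i
        rw [he4, he2 i (Finset.notMem_empty i)]
        rfl
      rw [h g, h g']
    infer_instance
  | insert a J ha ih =>
    have hk := taskW_ker_solvable T (n := n) ha
    let D : GJ T (insert a J) n →* GJ T J n :=
      (taskW_hom T ha).codRestrict (GJ T J n) fun g => ⟨taskW_hom_adm T ha g, by
        rw [← map_inv]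
        exact taskW_hom_adm T ha g⁻¹⟩
    refine Group.isSolvable_of_ker_le_range (taskW_hom T ha (n := n)).ker.subtype D ?_
    intro g hg
    rw [Subgroup.range_subtype, MonoidHom.mem_ker]
    exact congrArg Subtype.val ((MonoidHom.mem_ker).1 hg)

theorem UG_countable [Countable I] : Countable (UG T) := by
  have hc : ∀ (J : Finset I) (n : ℕ), Countable (GJ T J n) := by
    intro J n
    have := GJ_finite T J n
    infer_instance
  have hs : Function.Surjective (fun x : (Σ q : Finset I × ℕ, GJ T q.1 q.2) =>
      (⟨x.2.1, x.1.1, x.1.2, x.2.2⟩ : UG T)) := by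
    rintro ⟨g, J, n, hg⟩
    exact ⟨⟨(J, n), ⟨g, hg⟩⟩, rfl⟩
  have : ∀ q : Finset I × ℕ, Countable (GJ T q.1 q.2) := fun q => hc q.1 q.2
  exact hs.countable

theorem UG_torsion (g : UG T) : IsOfFinOrder g := by
  obtain ⟨g, J, n, hg⟩ := g
  have := GJ_finite T J n
  have h1 : IsOfFinOrder (⟨g, hg⟩ : GJ T J n) := isOfFinOrder_of_finite _
  rw [isOfFinOrder_iff_pow_eq_one] at h1 ⊢
  obtain ⟨m, hm, h2⟩ := h1
  refine ⟨m, hm, ?_⟩
  apply Subtype.ext
  have h3 := congrArg (fun z : GJ T J n => (z : Perm (Om T))) h2
  exact h3

theorem UG_locSolvable : LocSolvable (UG T) := by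
  classical
  intro S
  have hex : ∃ J n, ∀ s ∈ S, (s : Perm (Om T)) ∈ GJ T J n := by
    induction S using Finset.induction_on with
    | empty => exact ⟨∅, 0, fun s hs => absurd hs (Finset.notMem_empty s)⟩
    | insert a S _ ih =>
      obtain ⟨J, n, h⟩ := ih
      obtain ⟨J', n', h'⟩ := a.2
      refine ⟨J ∪ J', max n n', fun s hs => ?_⟩
      rcases Finset.mem_insert.1 hs with rfl | hs
      · exact GJ_mono T Finset.subset_union_right (le_max_right _ _) h'
      · exact GJ_mono T Finset.subset_union_left (le_max_left _ _) (h s hs)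
  obtain ⟨J, n, h⟩ := hex
  have hle : Subgroup.closure (S : Set (UG T)) ≤ (GJ T J n).comap (UG T).subtype := by
    rw [Subgroup.closure_le]
    intro s hs
    exact h s hs
  have hsol := GJ_solvable T J n
  let f : Subgroup.closure (S : Set (UG T)) →* GJ T J n :=
    ((UG T).subtype.comp (Subgroup.closure (S : Set (UG T))).subtype).codRestrict (GJ T J n)
      fun x => hle x.2
  refine Group.isSolvable_of_isSolvable_injective (f := f) ?_
  intro x y hxy
  apply Subtype.ext
  apply Subtype.ext
  have h3 := congrArg (fun z : GJ T J n => (z : Perm (Om T))) hxy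
  exact h3

end Pool.Agent.LibUS10
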